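import Mathlib

open Matrix Finset

namespace Pool.Agent.MP_45e593_co

variable {V : Type*} [Fintype V] [DecidableEq V]

/-- adjacency matrix of a 2-regular simple graph -/
structure TwoReg (B : Matrix V V ℤ) : Prop where
  sym : ∀ i j, B i j = B j i
  diag : ∀ i, B i i = 0
  bit : ∀ i j, B i j = 0 ∨ B i j = 1
  row : ∀ i, ∑ j, B i j = 2

omit [DecidableEq V] in
theorem TwoReg.nonneg {B : Matrix V V ℤ} (h : TwoReg B) (i j : V) : 0 ≤ B i j := by
  rcases h.bit i j with h | h <;> omega

omit [DecidableEq V] in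
theorem TwoReg.exists_nbr {B : Matrix V V ℤ} (h : TwoReg B) (x : V) : ∃ y, B x y = 1 := by
  obtain ⟨y, -, hy⟩ := exists_ne_zero_of_sum_ne_zero (s := univ) (f := fun y => B x y)
    (by rw [h.row]; norm_num)
  exact ⟨y, (h.bit x y).resolve_left hy⟩

theorem TwoReg.exists_oth {B : Matrix V V ℤ} (h : TwoReg B) (x y : V) (hy : B x y = 1) :
    ∃ z, z ≠ y ∧ B x z = 1 ∧ ∀ f : V → ℤ, ∑ u, B x u * f u = f y + f z := by
  have h1 : ∑ u ∈ univ.erase y, B x u = 1 := by
    have := add_sum_erase univ (fun u => B x u) (mem_univ y)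
    rw [h.row] at this
    simp only [hy] at this
    omega
  obtain ⟨z, hz, hz0⟩ := exists_ne_zero_of_sum_ne_zero (s := univ.erase y) (f := fun u => B x u)
    (by omega)
  have hz1 := (h.bit x z).resolve_left hz0
  have h2 : ∑ u ∈ (univ.erase y).erase z, B x u = 0 := by
    have := add_sum_erase (univ.erase y) (fun u => B x u) hz
    simp only [hz1] at this
    omega
  rw [sum_eq_zero_iff_of_nonneg fun u _ => h.nonneg x u] at h2
  refine ⟨z, (mem_erase.1 hz).1, hz1, fun f => ?_⟩
  rw [← add_sum_erase _ _ (mem_univ y), ← add_sum_erase _ _ hz, hy, hz1,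
    sum_eq_zero fun u hu => by rw [h2 u hu, zero_mul]]
  ring

abbrev Dt (B : Matrix V V ℤ) := {p : V × V // B p.1 p.2 = 1}

def rev {B : Matrix V V ℤ} (h : TwoReg B) (d : Dt B) : Dt B :=
  ⟨(d.1.2, d.1.1), (h.sym _ _).trans d.2⟩

theorem TwoReg.exists_shift {B : Matrix V V ℤ} (h : TwoReg B) : ∃ T : Equiv.Perm (Dt B), ∀ d,
    (T d).1.1 = d.1.2 ∧ (T d).1.2 ≠ d.1.1 ∧
      ∀ f : V → ℤ, ∑ u, B d.1.2 u * f u = f d.1.1 + f (T d).1.2 := by
  choose oth h1 h2 h3 using h.exists_oth
  let nxt : Dt B → Dt B := fun d => ⟨(d.1.2, oth d.1.2 d.1.1 (rev h d).2), h2 _ _ _⟩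
  have hinj : Function.Injective nxt := by
    rintro ⟨⟨x, y⟩, hd⟩ ⟨⟨x', y'⟩, hd'⟩ he
    have e1 : y = y' := congrArg (fun d : Dt B => d.1.1) he
    subst e1
    have e2 : oth y x (rev h ⟨_, hd⟩).2 = oth y x' (rev h ⟨_, hd'⟩).2 :=
      congrArg (fun d : Dt B => d.1.2) he
    have a1 := h3 y x (rev h ⟨_, hd⟩).2 fun u => if u = x then 1 else 0
    have a2 := h3 y x' (rev h ⟨_, hd'⟩).2 fun u => if u = x then 1 else 0
    rw [a2, ← e2] at a1
    have : x' = x := by
      by_contra hn
      simp [hn] at a1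
    subst this
    rfl
  exact ⟨Equiv.ofBijective nxt (Finite.injective_iff_bijective.1 hinj),
    fun d => ⟨rfl, h1 _ _ _, h3 _ _ _⟩⟩

/-- Chebyshev matrices -/
def Cm (B : Matrix V V ℤ) : ℕ → Matrix V V ℤ
  | 0 => 2
  | 1 => B
  | j + 2 => B * Cm B (j + 1) - Cm B j

theorem Cm_comm {A B : Matrix V V ℤ} (h : Commute A B) : ∀ j, Commute A (Cm B j)
  | 0 => Commute.ofNat_right A 2
  | 1 => h
  | j + 2 => (h.mul_right (Cm_comm h (j + 1))).sub_right (Cm_comm h j)

theorem Cm_walk {B : Matrix V V ℤ} (w : ℤ → V)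
    (hw : ∀ i (f : V → ℤ), ∑ u, B (w i) u * f u = f (w (i + 1)) + f (w (i - 1))) :
    ∀ (j : ℕ) (i : ℤ) (f : V → ℤ), ∑ u, Cm B j (w i) u * f u = f (w (i + j)) + f (w (i - j))
  | 0, i, f => by
    have : (Cm B 0 *ᵥ f) (w i) = 2 * f (w i) := by
      rw [Cm, ← one_add_one_eq_two, add_mulVec, one_mulVec, two_mul]
      rfl
    simp only [Nat.cast_zero, add_zero, sub_zero, ← two_mul]
    exact this
  | 1, i, f => hw i f
  | j + 2, i, f => by
    have e : ∑ u, Cm B (j + 2) (w i) u * f u =
        ∑ u, B (w i) u * (∑ v, Cm B (j + 1) u v * f v) - ∑ u, Cm B j (w i) u * f u := by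
      change (Cm B (j + 2) *ᵥ f) (w i) = (B *ᵥ (Cm B (j + 1) *ᵥ f)) (w i) - (Cm B j *ᵥ f) (w i)
      rw [Cm, sub_mulVec, mulVec_mulVec]
      rfl
    rw [e, hw, Cm_walk w hw (j + 1), Cm_walk w hw (j + 1), Cm_walk w hw j]
    push_cast
    rw [show i + 1 + (j + 1) = i + (j + 2) by ring, show i + 1 - (j + 1) = i - j by ring,
      show i - 1 + (j + 1) = i + j by ring, show i - 1 - (j + 1) = i - (j + 2) by ring]
    ring

/-- the data of a defect two graph -/
structure Def2 (A B : Matrix V V ℤ) (k : ℤ) : Prop where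
  two : TwoReg B
  sym : ∀ i j, A i j = A j i
  diag : ∀ i, A i i = 0
  bit : ∀ i j, A i j = 0 ∨ A i j = 1
  row : ∀ i, ∑ j, A i j = k
  sq : ∀ i j, (A * A) i j = (if i = j then k - 1 else 0) + 1 - B i j
  card : (Fintype.card V : ℤ) = k ^ 2 - k + 3

namespace Def2

variable {A B : Matrix V V ℤ} {k : ℤ}

theorem nonneg (h : Def2 A B k) (i j : V) : 0 ≤ A i j := by
  rcases h.bit i j with h | h <;> omega

theorem B_eq (h : Def2 A B k) : B = (k - 1) • (1 : Matrix V V ℤ) + of (fun _ _ => 1) - A * A := by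
  ext i j
  simp only [Matrix.sub_apply, Matrix.add_apply, Matrix.smul_apply, one_apply, of_apply, h.sq,
    smul_eq_mul]
  split_ifs <;> ring

theorem AJ (h : Def2 A B k) : A * of (fun _ _ => (1 : ℤ)) = k • of (fun _ _ : V => (1 : ℤ)) := by
  ext i j
  simp [Matrix.mul_apply, h.row]

theorem JA (h : Def2 A B k) : of (fun _ _ => (1 : ℤ)) * A = k • of (fun _ _ : V => (1 : ℤ)) := by
  ext i j
  simp [Matrix.mul_apply, h.sym _ j, h.row]

theorem comm (h : Def2 A B k) : Commute A B := by
  rw [h.B_eq]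
  refine Commute.sub_right (Commute.add_right ((Commute.one_right A).smul_right _) ?_)
    ((Commute.refl A).mul_right (Commute.refl A))
  exact h.AJ.trans h.JA.symm

theorem JC (h : Def2 A B k) : ∀ j,
    of (fun _ _ => (1 : ℤ)) * Cm B j = (2 : ℤ) • of (fun _ _ : V => (1 : ℤ)) := by
  have h1 : of (fun _ _ => (1 : ℤ)) * B = (2 : ℤ) • of (fun _ _ : V => (1 : ℤ)) := by
    ext i j
    simp [Matrix.mul_apply, h.two.sym _ j, h.two.row]
  intro j
  induction j using Nat.twoStepInduction with
  | zero => rw [Cm, two_smul, mul_two]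
  | one => exact h1
  | more j a b =>
    rw [Cm, mul_sub, ← mul_assoc, h1, smul_mul_assoc, a, b, two_smul, add_sub_cancel_right]

theorem trace_Cm (h : Def2 A B k) {s p : ℤ} (hs : k = s ^ 2)
    (ht : ∀ r : ℕ, (A ^ (2 * r + 1)).trace = k ^ (2 * r + 1) + s ^ (2 * r + 1) * p) (j : ℕ) :
    ∀ r : ℕ, (A ^ (2 * r + 1) * Cm B j).trace =
      2 * k ^ (2 * r + 1) + s ^ (2 * r + 1) * p * (if j % 3 = 0 then 2 else -1) := by
  have hJ : ∀ n : ℕ, A ^ n * of (fun _ _ => (1 : ℤ)) = k ^ n • of (fun _ _ : V => (1 : ℤ)) := by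
    intro n
    induction n with
    | zero => simp
    | succ n ih => rw [pow_succ', mul_assoc, ih, mul_smul_comm, h.AJ, smul_smul, pow_succ]
  have step : ∀ (j : ℕ) (c : ℤ), (∀ r : ℕ, (A ^ (2 * r + 1) * Cm B j).trace =
      2 * k ^ (2 * r + 1) + s ^ (2 * r + 1) * p * c) → ∀ r : ℕ,
      (A ^ (2 * r + 1) * (B * Cm B j)).trace = 4 * k ^ (2 * r + 1) - s ^ (2 * r + 1) * p * c := by
    intro j c hc r
    have e : A ^ (2 * r + 1) * (B * Cm B j) = (k - 1) • (A ^ (2 * r + 1) * Cm B j) +
        (k ^ (2 * r + 1) * 2) • of (fun _ _ : V => (1 : ℤ)) - A ^ (2 * (r + 1) + 1) * Cm B j := by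
      have e1 : B * Cm B j = (k - 1) • Cm B j + (2 : ℤ) • of (fun _ _ : V => (1 : ℤ)) -
          A * A * Cm B j := by
        rw [← h.JC j]
        nth_rewrite 1 [h.B_eq]
        rw [sub_mul, add_mul, smul_mul_assoc, one_mul]
      rw [e1, mul_sub, mul_add, mul_smul_comm, mul_smul_comm, hJ, smul_smul, mul_comm (2 : ℤ),
        ← mul_assoc, ← mul_assoc, ← pow_succ, ← pow_succ]
      rfl
    have tJ : (of (fun _ _ : V => (1 : ℤ))).trace = Fintype.card V := by simp [trace]
    rw [e, trace_sub, trace_add, trace_smul, trace_smul, hc, hc, tJ, h.card]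
    simp only [smul_eq_mul]
    rw [hs]
    ring
  induction j using Nat.twoStepInduction with
  | zero =>
    intro r
    rw [Cm, mul_two, trace_add, ht]
    simp
    ring
  | one =>
    intro r
    have h0 := step 0 2 (fun r => by
      rw [Cm, mul_two, trace_add, ht]
      ring) r
    rw [Cm, mul_two, mul_add, trace_add] at h0
    rw [Cm]
    simp only [Nat.one_mod, one_ne_zero, if_false]
    linarith
  | more j a b =>
    intro r
    rw [Cm, mul_sub, trace_sub, step _ _ b, a]
    have : j % 3 = 0 ∨ j % 3 = 1 ∨ j % 3 = 2 := by omega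
    rcases this with h' | h' | h' <;> simp [Nat.add_mod, h'] <;> ring

theorem invol (h : Def2 A B k) (σ : V → V) (h1 : ∀ x, σ (σ x) = x)
    (h2 : ∀ x y, A (σ x) (σ y) = A x y) (h3 : ∀ x, B x (σ x) = 0)
    (h4 : ∀ x y, σ x = x → B x y = 1 → σ y = y) (h5 : ∃ v, σ v ≠ v) : ∃ b : ℤ, k - 3 = b ^ 2 := by
  set F : Finset V := univ.filter fun x => σ x = x with hF
  have hmem : ∀ x, x ∈ F ↔ σ x = x := fun x => by simp [hF]
  let d : V → ℤ := fun v => ∑ z ∈ F, A v z
  have hB0 : ∀ v g, σ v ≠ v → σ g = g → B g v = 0 := fun v g hv hg =>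
    (h.two.bit g v).resolve_right fun h' => hv (h4 g v hg h')
  have hd1 : ∀ v, σ v ≠ v → d v = 1 := by
    intro v hv
    have a1 : ∑ z, A v z * A z (σ v) = 1 := by
      have := h.sq v (σ v)
      rw [if_neg hv.symm, h3, Matrix.mul_apply] at this
      omega
    have a0 : ∀ z, 0 ≤ A v z * A z (σ v) := fun z => mul_nonneg (h.nonneg _ _) (h.nonneg _ _)
    have a2 : ∀ z ∈ F, A v z * A z (σ v) = A v z := by
      intro z hz
      rw [← h2 z (σ v), h1, (hmem z).1 hz, h.sym z v]
      rcases h.bit v z with h' | h' <;> rw [h'] <;> norm_num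
    have a3 : d v = ∑ z ∈ F, A v z * A z (σ v) := (sum_congr rfl a2).symm
    have a4 : ∀ z, z ∉ F → A v z * A z (σ v) = 0 := by
      intro z hz
      have hz' : σ z ≠ z := fun h' => hz ((hmem z).2 h')
      have b1 := sum_le_sum_of_subset_of_nonneg (f := fun z => A v z * A z (σ v))
        (subset_univ {σ z, z}) fun i _ _ => a0 i
      rw [sum_pair hz', a1, h2 z v, ← h2 v (σ z), h1, h.sym z v, h.sym (σ v) z, mul_comm] at b1
      have := a0 z
      omega
    rw [a3, sum_subset (subset_univ F) fun z _ hz => a4 z hz, a1]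
  have huniq : ∀ v f, σ v ≠ v → f ∈ F → A v f = 1 → ∀ g ∈ F.erase f, A v g = 0 := by
    intro v f hv hf hvf
    have := add_sum_erase F (fun z => A v z) hf
    have a1 := hd1 v hv
    simp only [d] at a1
    rw [a1] at this
    simp only [hvf] at this
    exact (sum_eq_zero_iff_of_nonneg fun g _ => h.nonneg v g).1 (by omega)
  have hd2 : ∀ v f, σ v ≠ v → f ∈ F → A v f = 1 → d f = #F - k + 1 := by
    intro v f hv hf hvf
    have a1 : ∑ z, A v z * d z = #F := by
      simp only [d, mul_sum]
      rw [sum_comm, card_eq_sum_ones]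
      push_cast
      refine sum_congr rfl fun g hg => ?_
      have hg' := (hmem g).1 hg
      have := h.sq v g
      rw [if_neg (by rintro rfl; exact hv hg'), h.two.sym v g, hB0 v g hv hg',
        Matrix.mul_apply] at this
      omega
    have a2 : ∑ z, A v z * (d z - 1) = d f - 1 := by
      rw [sum_eq_single f, hvf, one_mul]
      · intro z _ hz
        by_cases hzF : z ∈ F
        · rw [huniq v f hv hf hvf z (mem_erase.2 ⟨hz, hzF⟩), zero_mul]
        · rw [hd1 z fun h' => hzF ((hmem z).2 h'), sub_self, mul_zero]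
      · simp
    simp only [mul_sub, sum_sub_distrib, mul_one, h.row, a1] at a2
    omega
  by_cases hall : ∀ f ∈ F, ∃ v, σ v ≠ v ∧ A v f = 1
  · have a1 : ∑ v, d v = k * #F := by
      simp only [d]
      rw [sum_comm, card_eq_sum_ones]
      push_cast
      rw [mul_sum]
      exact sum_congr rfl fun g _ => by simp [h.sym _ g, h.row]
    have a2 : ∑ v, (d v - 1) = #F * (#F - k) := by
      rw [← sum_subset (subset_univ F) fun z _ hz => by
        rw [hd1 z fun h' => hz ((hmem z).2 h'), sub_self]]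
      rw [sum_congr rfl fun f hf => (by
        obtain ⟨v, hv, hvf⟩ := hall f hf
        rw [hd2 v f hv hf hvf, add_sub_cancel_right] : d f - 1 = #F - k), sum_const, nsmul_eq_mul]
    rw [sum_sub_distrib, a1, sum_const, card_univ, nsmul_eq_mul, h.card] at a2
    exact ⟨k - #F, by linarith⟩
  · exfalso
    push Not at hall
    obtain ⟨f0, hf0, hn0⟩ := hall
    have hz0 : ∀ v, σ v ≠ v → A v f0 = 0 := fun v hv => (h.bit v f0).resolve_right (hn0 v hv)
    obtain ⟨f1, hf1⟩ := h.two.exists_nbr f0
    have hf1' : σ f1 = f1 := h4 f0 f1 ((hmem f0).1 hf0) hf1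
    have hz1 : ∀ v, σ v ≠ v → A v f1 = 0 := by
      intro v hv
      have a1 : (A * B) f0 v = 0 := by
        rw [Matrix.mul_apply]
        refine sum_eq_zero fun z _ => ?_
        by_cases hz : σ z = z
        · rw [hB0 v z hv hz, mul_zero]
        · rw [h.sym, hz0 z hz, zero_mul]
      rw [h.comm.eq, Matrix.mul_apply,
        sum_eq_zero_iff_of_nonneg fun z _ => mul_nonneg (h.two.nonneg _ _) (h.nonneg _ _)] at a1
      have := a1 f1 (mem_univ _)
      rwa [hf1, one_mul, h.sym] at this
    obtain ⟨v, hv⟩ := h5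
    obtain ⟨f, hf, hvf⟩ := exists_ne_zero_of_sum_ne_zero (s := F) (f := fun z => A v z)
      (by have := hd1 v hv; simp only [d] at this; omega)
    have hvf' := (h.bit v f).resolve_left hvf
    have key : ∀ g, σ g = g → (∀ u, σ u ≠ u → A u g = 0) → A f g = 1 := by
      intro g hg hgn
      have := h.sq v g
      rw [if_neg (by rintro rfl; exact hv hg), h.two.sym v g, hB0 v g hv hg, Matrix.mul_apply,
        sum_eq_single f, hvf', one_mul] at this
      · omega
      · intro z _ hz
        by_cases hzF : z ∈ F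
        · rw [huniq v f hv hf hvf' z (mem_erase.2 ⟨hz, hzF⟩), zero_mul]
        · rw [hgn z fun h' => hzF ((hmem z).2 h'), mul_zero]
      · simp
    have b0 := key f0 ((hmem f0).1 hf0) hz0
    have b1 := key f1 hf1' hz1
    have b2 := h.sq f0 f1
    rw [if_neg (by rintro rfl; rw [h.two.diag] at hf1; omega), hf1, Matrix.mul_apply] at b2
    have b3 := single_le_sum (f := fun z => A f0 z * A z f1)
      (fun z _ => mul_nonneg (h.nonneg _ _) (h.nonneg _ _)) (mem_univ f)
    simp only [h.sym f0 f, b0, b1] at b3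
    omega

theorem square_case (h : Def2 A B k) (h6 : 6 ≤ k) {s p : ℤ} (hs : k = s ^ 2) (hp : k + s * p = 0)
    (ht : ∀ r : ℕ, (A ^ (2 * r + 1)).trace = k ^ (2 * r + 1) + s ^ (2 * r + 1) * p) : False := by
  obtain ⟨T, hT⟩ := h.two.exists_shift
  let w : Dt B → ℤ → V := fun d i => ((T ^ i) d).1.1
  have hw2 : ∀ d i, ((T ^ i) d).1.2 = w d (i + 1) := by
    intro d i
    simp only [w]
    rw [add_comm, _root_.zpow_one_add, Equiv.Perm.mul_apply, (hT _).1]
  have hw : ∀ d i (f : V → ℤ), ∑ u, B (w d i) u * f u = f (w d (i + 1)) + f (w d (i - 1)) := by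
    intro d i f
    have a1 := (hT ((T ^ (i - 1)) d)).2.2 f
    rw [hw2, sub_add_cancel, ← Equiv.Perm.mul_apply, ← _root_.zpow_one_add, add_sub_cancel,
      hw2] at a1
    rw [a1, add_comm]
  have hBw : ∀ d i, B (w d i) (w d (i + 1)) = 1 := fun d i => by
    rw [← hw2]
    exact ((T ^ i) d).2
  have hrev1 : ∀ d, T (rev h.two (T d)) = rev h.two d := by
    intro d
    apply Subtype.ext
    apply Prod.ext
    · rw [(hT _).1]
      exact (hT d).1
    · have a1 := (hT (rev h.two (T d))).2.2 fun u => if u = d.1.1 then 1 else 0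
      have a2 := (hT d).2.2 fun u => if u = d.1.1 then 1 else 0
      change ∑ u, B (T d).1.1 u * _ = (if (T d).1.2 = d.1.1 then 1 else 0) + _ at a1
      rw [(hT d).1, a2] at a1
      by_contra hn
      change ¬ (T (rev h.two (T d))).1.2 = d.1.1 at hn
      simp [hn, (hT d).2.1] at a1
  have hrev : ∀ (i : ℕ) d, (T ^ i) (rev h.two ((T ^ i) d)) = rev h.two d := by
    intro i
    induction i with
    | zero => simp
    | succ n ih =>
      intro d
      nth_rewrite 2 [pow_succ']
      rw [pow_succ, Equiv.Perm.mul_apply, Equiv.Perm.mul_apply, hrev1, ih]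
  have hnr : ∀ (n : ℕ) e, (T ^ n) e ≠ rev h.two e := by
    intro n e he
    rcases Nat.even_or_odd' n with ⟨t, rfl | rfl⟩
    · rw [← hrev t, two_mul, pow_add, Equiv.Perm.mul_apply] at he
      have a1 : ((T ^ t) e).1.1 = ((T ^ t) e).1.2 :=
        congrArg (fun d : Dt B => d.1.1) ((T ^ t).injective he)
      have a2 := ((T ^ t) e).2
      rw [a1, h.two.diag] at a2
      omega
    · rw [← hrev t, show 2 * t + 1 = t + (1 + t) by ring, pow_add, pow_add, pow_one,
        Equiv.Perm.mul_apply, Equiv.Perm.mul_apply] at he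
      exact (hT _).2.1 (congrArg (fun d : Dt B => d.1.2) ((T ^ t).injective he))
  have hM : 0 < orderOf T := orderOf_pos T
  have hper : ∀ d i (c : ℤ), w d (i + orderOf T * c) = w d i := by
    intro d i c
    simp only [w]
    rw [_root_.zpow_add, _root_.zpow_mul, zpow_natCast, pow_orderOf_eq_one, _root_.one_zpow,
      mul_one]
  choose nb hnb using h.two.exists_nbr
  let D : V → Dt B := fun x => ⟨(x, nb x), hnb x⟩
  have hD : ∀ x, w (D x) 0 = x := fun x => rfl
  have hC := fun d => Cm_walk (w d) (hw d)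
  rcases Nat.even_or_odd' (orderOf T) with ⟨c, hc | hc⟩
  · let σ : V → V := fun x => w (D x) c
    have hneg : ∀ d i, w d (i - c) = w d (i + c) := by
      intro d i
      rw [← hper d (i - c) 1, hc]
      congr 1
      push_cast
      ring
    have hσ : ∀ d i, σ (w d i) = w d (i + c) := by
      intro d i
      have a1 := hC d c i fun u => if u = w d (i + c) then 1 else 0
      have a2 := hC (D (w d i)) c 0 fun u => if u = w d (i + c) then 1 else 0
      rw [hD, a1, hneg, hneg, zero_add] at a2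
      by_contra hn
      change ¬ w (D (w d i)) c = _ at hn
      simp [hn] at a2
    have hσ2 : ∀ x, σ (σ x) = x := by
      intro x
      change σ (w (D x) c) = x
      rw [hσ, ← hneg, sub_self, hD]
    have hCσ : ∀ x (f : V → ℤ), ∑ u, Cm B c x u * f u = 2 * f (σ x) := by
      intro x f
      have := hC (D x) c 0 f
      rw [hD, hneg, zero_add, ← two_mul] at this
      exact this
    have hCe : ∀ x y, Cm B c x y = if x = σ y then 2 else 0 := by
      intro x y
      have := hCσ x fun u => if u = y then 1 else 0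
      simp only [mul_ite, mul_one, mul_zero, sum_ite_eq', mem_univ, if_true] at this
      rw [this]
      exact if_congr ⟨fun h' => by rw [← h', hσ2], fun h' => by rw [h', hσ2]⟩ rfl rfl
    obtain ⟨b, hb⟩ := h.invol σ hσ2 (fun x y => by
      have a1 := congrFun (congrFun (Cm_comm h.comm c).eq x) (σ y)
      rw [Matrix.mul_apply, Matrix.mul_apply, hCσ] at a1
      simp only [hCe, hσ2, mul_ite, mul_zero, sum_ite_eq', mem_univ, if_true] at a1
      omega) (fun x => (h.two.bit _ _).resolve_right fun hx => by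
      refine hnr c ⟨(x, σ x), hx⟩ (Subtype.ext (Prod.ext ?_ ?_))
      · have := hσ ⟨(x, σ x), hx⟩ 0
        rw [zero_add] at this
        simp only [w, zpow_natCast] at this
        exact this.symm
      · have := hσ ⟨(x, σ x), hx⟩ (0 + 1)
        rw [← hw2, add_right_comm, ← hw2, zero_add, zpow_natCast] at this
        exact this.symm.trans (hσ2 x)) (fun x y hx hy => by
      by_contra hn
      let d : Dt B := ⟨(x, y), hy⟩
      have a0 : w d 0 = x := rfl
      have a1 : w d (0 + 1) = y := (hw2 d 0).symm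
      have a2 : w d (0 + c) = x := by rw [← hσ, a0, hx]
      have a3 : w d (0 + c + 1) = σ y := by rw [add_right_comm, ← hσ, a1]
      have a4 := hw d 0 fun u => if u = σ y then 1 else 0
      have a5 := hBw d (0 + c)
      rw [a2, a3] at a5
      rw [a0, a1, if_neg (Ne.symm hn)] at a4
      simp only [mul_ite, mul_one, mul_zero, sum_ite_eq', mem_univ, if_true, a5] at a4
      have a6 : w d (0 - 1) = σ y := by
        by_contra hm
        rw [if_neg hm] at a4
        omega
      have a7 : (T ^ (c + 1)) ((T ^ (0 - 1 : ℤ)) d) = (T ^ (0 + c : ℤ)) d := by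
        rw [← Equiv.Perm.mul_apply, ← zpow_natCast, ← _root_.zpow_add]
        congr 2
        push_cast
        ring
      refine hnr (c + 1) ((T ^ (0 - 1 : ℤ)) d) (a7.trans (Subtype.ext (Prod.ext ?_ ?_)))
      · exact a2.trans ((hw2 d (0 - 1)).trans (by rw [sub_add_cancel, a0])).symm
      · exact (hw2 _ _).trans (a3.trans a6.symm)) (by
      by_contra hn
      push Not at hn
      have : T ^ c = 1 := by
        ext d
        · have := hσ d 0
          rw [hn, zero_add] at this
          simp only [w, zpow_natCast] at this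
          exact this.symm
        · have := hσ d (0 + 1)
          rw [hn, ← hw2, add_right_comm, ← hw2, zero_add, zpow_natCast] at this
          exact this.symm
      have := Nat.le_of_dvd (by omega) (orderOf_dvd_of_pow_eq_one this)
      omega)
    have b1 := abs_nonneg s
    have b2 := abs_nonneg b
    rw [← sq_abs] at hs hb
    have b3 : |b| < |s| := by nlinarith
    have b4 : 3 ≤ |s| := by nlinarith
    nlinarith
  · have htr : ∀ j : ℕ, (∀ d i, A (w d i) (w d (i + j)) = 0) → j % 3 = 0 := by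
      intro j hj
      have a1 := h.trace_Cm hs ht j 0
      have a2 : (Cm B j * A).trace = 0 := by
        refine sum_eq_zero fun x _ => ?_
        have b1 := hC (D x) j 0 fun u => A u x
        have b2 := hj (D x) 0
        have b3 := hj (D x) (0 - j)
        rw [sub_add_cancel] at b3
        rw [hD] at b1 b2 b3
        rw [b3, h.sym, b2] at b1
        exact b1
      rw [mul_zero, zero_add, pow_one, pow_one, pow_one, trace_mul_comm, a2] at a1
      by_contra hn
      rw [if_neg hn] at a1
      omega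
    have hconst : ∀ d (t : ℕ) i, A (w d (i + 1)) (w d (i + 1 + 2 * t)) =
        A (w d i) (w d (i + 2 * t)) := by
      intro d t
      induction t with
      | zero => simp [h.diag]
      | succ t ih =>
        intro i
        have a1 := congrFun (congrFun h.comm.eq (w d (i + 1))) (w d (i + 2 + 2 * t))
        rw [Matrix.mul_apply, Matrix.mul_apply, hw] at a1
        simp only [mul_comm (A _ _), h.two.sym _ (w d _)] at a1
        rw [hw] at a1
        have a2 := ih (i + 1)
        push_cast
        rw [show i + 1 + 2 * ((t : ℤ) + 1) = i + 2 + 2 * t + 1 by ring,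
          show i + 2 * ((t : ℤ) + 1) = i + 2 + 2 * t by ring]
        rw [show i + 2 + 2 * (t : ℤ) - 1 = i + 1 + 2 * t by ring, add_sub_cancel_right] at a1
        rw [show i + 1 + 1 + 2 * (t : ℤ) = i + 2 + 2 * t by ring] at a2
        omega
    have hconst' : ∀ d (t n : ℕ) i, A (w d (i + n)) (w d (i + n + 2 * t)) =
        A (w d i) (w d (i + 2 * t)) := by
      intro d t n i
      induction n with
      | zero => simp
      | succ n ih =>
        push_cast
        rw [← add_assoc, hconst, ih]
    have h1 := htr (orderOf T) fun d i => by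
      have := hper d i 1
      rw [mul_one] at this
      rw [this, h.diag]
    have h2 := htr (2 * (c + 1) ^ 2) fun d i => (h.bit _ _).resolve_right fun h' => by
      have a1 := hconst' d ((c + 1) ^ 2) (2 * (c + 1) ^ 2) i
      have a2 := hper d (i + 1) (2 * c + 3)
      rw [hc] at a2
      push_cast at a1 a2 h'
      rw [h', show i + 2 * ((c : ℤ) + 1) ^ 2 + 2 * (c + 1) ^ 2 = i + 1 + (2 * c + 1) * (2 * c + 3)
        by ring, a2] at a1
      have a3 := h.sq (w d i) (w d (i + 1))
      have a4 := hBw d i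
      rw [if_neg (fun e => by rw [← e, h.two.diag] at a4; omega), a4, Matrix.mul_apply] at a3
      have a5 := single_le_sum (f := fun z => A (w d i) z * A z (w d (i + 1)))
        (fun z _ => mul_nonneg (h.nonneg _ _) (h.nonneg _ _))
        (mem_univ (w d (i + 2 * ((c : ℤ) + 1) ^ 2)))
      simp only [h', a1] at a5
      omega
    have : c % 3 = 1 := by omega
    simp [Nat.mul_mod, Nat.pow_mod, Nat.add_mod, this] at h2

end Def2

end Pool.Agent.MP_45e593_co
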