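import Mathlib

open Polynomial NumberField

namespace Pool.Agent.MP_45e593_co

section ring
variable {R : Type*} [CommRing R]

theorem frob_all (σ : R →+* R) (ζ : R) (htop : Algebra.adjoin ℤ {ζ} = ⊤)
    (h : (2 : R) ∣ ζ ^ 2 - σ ζ) (x : R) : (2 : R) ∣ x ^ 2 - σ x := by
  have hx : x ∈ Algebra.adjoin ℤ {ζ} := htop ▸ Algebra.mem_top
  induction hx using Algebra.adjoin_induction with
  | mem y hy => rwa [Set.mem_singleton_iff.1 hy]
  | algebraMap n =>
    obtain ⟨c, hc⟩ := Int.even_mul_pred_self n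
    refine ⟨c, ?_⟩
    have := congrArg (Int.cast : ℤ → R) hc
    simp only [eq_intCast, map_intCast]
    push_cast at this
    linear_combination this
  | add y z _ _ hy hz =>
    obtain ⟨a, ha⟩ := hy
    obtain ⟨b, hb⟩ := hz
    exact ⟨a + b + y * z, by rw [map_add]; linear_combination ha + hb⟩
  | mul y z _ _ hy hz =>
    obtain ⟨a, ha⟩ := hy
    obtain ⟨b, hb⟩ := hz
    exact ⟨y ^ 2 * b + σ z * a, by rw [map_mul]; linear_combination y ^ 2 * hb + σ z * ha⟩

theorem neg_all (τ : R →+* R) (ζ : R) (htop : Algebra.adjoin ℤ {ζ} = ⊤)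
    (h : (2 : R) ∣ ζ - τ ζ) (x : R) : (2 : R) ∣ x - τ x := by
  have hx : x ∈ Algebra.adjoin ℤ {ζ} := htop ▸ Algebra.mem_top
  induction hx using Algebra.adjoin_induction with
  | mem y hy => rwa [Set.mem_singleton_iff.1 hy]
  | algebraMap n => simp
  | add y z _ _ hy hz =>
    obtain ⟨a, ha⟩ := hy
    obtain ⟨b, hb⟩ := hz
    exact ⟨a + b, by rw [map_add]; linear_combination ha + hb⟩
  | mul y z _ _ hy hz =>
    obtain ⟨a, ha⟩ := hy
    obtain ⟨b, hb⟩ := hz
    exact ⟨y * b + τ z * a, by rw [map_mul]; linear_combination y * hb + τ z * ha⟩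

theorem one_sub_dvd [IsDomain R] {ω : R} {l : ℕ} (h : ω ^ l = 1) (h1 : ω ≠ 1) :
    (ω - 1) ∣ (l : R) := by
  have h2 : ∑ i ∈ Finset.range l, ω ^ i = 0 := by
    have := mul_geom_sum ω l
    rw [h, sub_self] at this
    exact (mul_eq_zero.1 this).resolve_left (sub_ne_zero.2 h1)
  have h3 : (l : R) = -∑ i ∈ Finset.range l, (ω ^ i - 1) := by
    rw [Finset.sum_sub_distrib, h2]
    simp
  rw [h3, dvd_neg]
  exact Finset.dvd_sum fun i _ => by simpa using sub_dvd_pow_sub_pow ω 1 i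

theorem odd_case [IsDomain R] (hR : ∀ n : ℕ, Odd n → ¬ (2 : R) ∣ n) (h2 : (2 : R) ≠ 0)
    (σ : R ≃+* R) (θ θ' γ : R)
    (l : ℕ) (hl : Odd l) (hθ : θ ^ l = 1) (hθ' : θ * θ' = 1) (hσ : σ θ = θ ^ 2)
    (hγ : (2 : R) ∣ γ ^ 2 - σ γ) (m : ℤ) (hm : Odd m)
    (h : γ ^ 2 = m - (θ ^ 2 + θ' ^ 2) ∨ γ ^ 2 = m + (θ ^ 2 + θ' ^ 2)) : θ ^ 3 = 1 ∨ θ ^ 5 = 1 := by
  have hσ' : σ θ' = θ' ^ 2 := by
    have h1 : σ θ * σ θ' = 1 := by rw [← map_mul, hθ', map_one]
    rw [hσ] at h1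
    linear_combination θ' ^ 2 * h1 - σ θ' * (θ * θ' + 1) * hθ'
  obtain ⟨y, hy⟩ := hγ
  obtain ⟨c, hc⟩ := hm
  have hc' : (m : R) = 2 * c + 1 := by rw [hc]; push_cast; ring
  have e1 : ∃ z, σ (γ - 1 - (θ + θ')) = 2 * z := by
    simp only [map_sub, map_add, map_one, hσ, hσ']
    rcases h with h | h
    · exact ⟨c - y - (θ ^ 2 + θ' ^ 2), by linear_combination h - hy + hc'⟩
    · exact ⟨c - y, by linear_combination h - hy + hc'⟩
  obtain ⟨z, hz⟩ := e1
  have e2 : γ = 1 + (θ + θ') + 2 * σ.symm z := by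
    have := congrArg σ.symm hz
    rw [RingEquiv.symm_apply_apply, map_mul, map_ofNat] at this
    linear_combination this
  set u := σ.symm z
  have e3 : ∃ (d : ℤ) (v : R), (θ + θ') ^ 2 + (θ + θ') = d + 2 * v := by
    rcases h with h | h
    · refine ⟨c + 1, -(u * (1 + (θ + θ') + u)), mul_left_cancel₀ h2 ?_⟩
      rw [e2] at h
      push_cast
      linear_combination h + hc' + 2 * hθ'
    · have e4 : θ + θ' = c - 1 - 2 * (u * (1 + (θ + θ') + u)) := by
        refine mul_left_cancel₀ h2 ?_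
        rw [e2] at h
        linear_combination h + hc' - 2 * hθ'
      refine ⟨c * (c - 1), (u * (1 + (θ + θ') + u)) * (2 * (u * (1 + (θ + θ') + u)) - 2 * c + 1), ?_⟩
      push_cast
      linear_combination (θ + θ' + c - 2 * (u * (1 + (θ + θ') + u))) * e4
  obtain ⟨d, v, hd⟩ := e3
  obtain ⟨f, hf⟩ := Int.even_mul_pred_self d
  have hf' : (d : R) * (d - 1) = f + f := by exact_mod_cast congrArg (Int.cast : ℤ → R) hf
  have e5 : (2 : R) ∣ (θ ^ 5 - 1) * (θ ^ 3 - 1) := by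
    have a1 : (θ + θ') ^ 4 - (θ + θ') =
        2 * (f + 2 * d * v + 2 * v ^ 2 - v - (θ + θ') ^ 3) := by
      linear_combination ((θ + θ') ^ 2 + (θ + θ') + d + 2 * v - 1) * hd + hf'
    have a2 : (θ ^ 5 - 1) * (θ ^ 3 - 1) =
        θ ^ 4 * ((θ + θ') ^ 4 - (θ + θ')) - 2 * (2 * θ ^ 6 + 3 * θ ^ 4 + 2 * θ ^ 2) := by
      linear_combination (-(4 * θ ^ 6) - 6 * θ ^ 4 * (θ * θ' + 1) -
        4 * θ ^ 2 * ((θ * θ') ^ 2 + θ * θ' + 1) -
        ((θ * θ') ^ 3 + (θ * θ') ^ 2 + θ * θ' + 1) + θ ^ 3) * hθ'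
    rw [a2, a1]
    exact Dvd.dvd.sub (Dvd.dvd.mul_left (dvd_mul_right _ _) _) (dvd_mul_right _ _)
  by_contra hn
  rw [not_or] at hn
  have b1 := one_sub_dvd (ω := θ ^ 5) (l := l) (by rw [← pow_mul, mul_comm, pow_mul, hθ, one_pow])
    hn.2
  have b2 := one_sub_dvd (ω := θ ^ 3) (l := l) (by rw [← pow_mul, mul_comm, pow_mul, hθ, one_pow])
    hn.1
  exact hR (l * l) (hl.mul hl) (by push_cast; exact e5.trans (mul_dvd_mul b1 b2))

end ring

section field
variable {K : Type*} [Field K] [NumberField K]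

theorem odd_not_dvd (n : ℕ) (hn : Odd n) : ¬ (2 : 𝓞 K) ∣ n := by
  rintro ⟨c, hc⟩
  have h1 : (algebraMap ℚ K ((n : ℚ) / 2)) = (c : K) := by
    have := congrArg (algebraMap (𝓞 K) K) hc
    simp only [map_natCast, map_mul, map_ofNat] at this
    rw [map_div₀, map_natCast, map_ofNat, this]
    simp
  have h2 : IsIntegral ℤ ((n : ℚ) / 2) := by
    rw [← isIntegral_algebraMap_iff (algebraMap ℚ K).injective, h1]
    exact c.isIntegral_coe
  obtain ⟨y, hy⟩ := IsIntegrallyClosed.isIntegral_iff.1 h2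
  have h3 : (n : ℤ) = 2 * y := by
    have : (n : ℚ) = 2 * y := by
      simp only [eq_intCast] at hy
      linarith
    exact_mod_cast this
  obtain ⟨k, hk⟩ := hn
  omega

theorem exists_aut {l : ℕ} [NeZero l] [IsCyclotomicExtension {l} ℚ K] {ζ : K}
    (hζ : IsPrimitiveRoot ζ l) {a : ℕ} (ha : a.Coprime l) : ∃ σ : K ≃+* K, σ ζ = ζ ^ a := by
  have hirr : Irreducible (cyclotomic l ℚ) := cyclotomic.irreducible_rat (NeZero.pos l)
  refine ⟨((IsCyclotomicExtension.fromZetaAut hζ hirr).symm.trans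
    (IsCyclotomicExtension.fromZetaAut (hζ.pow_of_coprime a ha) hirr)).toRingEquiv, ?_⟩
  have h1 := IsCyclotomicExtension.fromZetaAut_spec hζ hirr
  have h2 := IsCyclotomicExtension.fromZetaAut_spec (hζ.pow_of_coprime a ha) hirr
  have h3 : (IsCyclotomicExtension.fromZetaAut hζ hirr).symm ζ =
      IsCyclotomicExtension.zeta l ℚ K := by
    rw [AlgEquiv.symm_apply_eq, h1]
  change IsCyclotomicExtension.fromZetaAut (hζ.pow_of_coprime a ha) hirr
    ((IsCyclotomicExtension.fromZetaAut hζ hirr).symm ζ) = _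
  rw [h3, h2]

theorem half_case {ζ : K} {l : ℕ} (hl : l ≠ 0) (hζ : ζ ^ l = 1)
    (h : IsIntegral ℤ ((ζ + ζ⁻¹) / 2)) : ζ + ζ⁻¹ = 0 ∨ (ζ + ζ⁻¹) ^ 2 = 4 := by
  by_cases h0 : (ζ + ζ⁻¹) / 2 = 0
  · left
    simpa using h0
  right
  have hn : ∀ φ : K →+* ℂ, ‖φ ζ‖ = 1 := fun φ =>
    Complex.norm_eq_one_of_pow_eq_one (by rw [← map_pow, hζ, map_one]) hl
  obtain ⟨n, hn0, hn1⟩ := Embeddings.pow_eq_one_of_norm_le_one K ℂ h0 h fun φ => by
    rw [map_div₀, map_add, map_inv₀, map_ofNat, norm_div, Complex.norm_ofNat,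
      div_le_one (by norm_num)]
    refine (norm_add_le _ _).trans ?_
    rw [norm_inv, hn φ]
    norm_num
  let φ : K →+* ℂ := (IsAlgClosed.lift (R := ℚ) (S := K) (M := ℂ)).toRingHom
  have h1 : ‖φ ((ζ + ζ⁻¹) / 2)‖ = 1 :=
    Complex.norm_eq_one_of_pow_eq_one (by rw [← map_pow, hn1, map_one]) hn0.ne'
  apply φ.injective
  rw [map_div₀, map_add, map_inv₀, map_ofNat, norm_div, Complex.norm_ofNat,
    Complex.inv_eq_conj (hn φ), Complex.add_conj, Complex.norm_real, Real.norm_eq_abs,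
    div_eq_one_iff_eq (by norm_num)] at h1
  rw [map_pow, map_add, map_inv₀, map_ofNat, Complex.inv_eq_conj (hn φ), Complex.add_conj,
    ← Complex.ofReal_pow, ← sq_abs, h1]
  norm_num

/-- `m - ζ - ζ⁻¹` with `m` odd is a square in a cyclotomic field only for very small orders -/
theorem cyclo {l : ℕ} [NeZero l] [IsCyclotomicExtension {l} ℚ K] {ζ : K}
    (hζ : IsPrimitiveRoot ζ l) (γ : K) (hγ : IsIntegral ℤ γ) (m : ℤ) (hm : Odd m)
    (h : γ ^ 2 = m - (ζ + ζ⁻¹)) :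
    (∃ b : ℤ, ζ + ζ⁻¹ = b) ∨ (ζ + ζ⁻¹) ^ 2 + (ζ + ζ⁻¹) - 1 = 0 ∨
      (ζ + ζ⁻¹) ^ 2 - (ζ + ζ⁻¹) - 1 = 0 := by
  have htop := IsCyclotomicExtension.Rat.adjoin_singleton_eq_top hζ
  have hl0 : l ≠ 0 := NeZero.ne l
  have hζ0 : ζ ≠ 0 := hζ.ne_zero hl0
  set Z : 𝓞 K := hζ.toInteger with hZ
  have hZc : (Z : K) = ζ := rfl
  let g : 𝓞 K := ⟨γ, hγ⟩
  have hgc : (g : K) = γ := rfl
  have hinv : ζ⁻¹ = ζ ^ (l - 1) := by
    apply inv_eq_of_mul_eq_one_right
    rw [← pow_succ', Nat.sub_add_cancel (Nat.pos_of_ne_zero hl0), hζ.pow_eq_one]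
  have h2 : (2 : 𝓞 K) ≠ 0 := two_ne_zero
  have key : ∀ (e : ℤ) (ξ : 𝓞 K) (l' a : ℕ), (e = 1 ∨ e = -1) → Odd l' → Z = e * ξ → ξ ^ l' = 1 →
      a.Coprime l → Z ^ a = e * Z ^ 2 →
      (∃ b : ℤ, ζ + ζ⁻¹ = b) ∨ (ζ + ζ⁻¹) ^ 2 + (ζ + ζ⁻¹) - 1 = 0 ∨
        (ζ + ζ⁻¹) ^ 2 - (ζ + ζ⁻¹) - 1 = 0 := by
    intro e ξ l' a he hl' hξ hξl ha hZa
    obtain ⟨σ, hσ⟩ := exists_aut hζ ha
    let s : 𝓞 K ≃+* 𝓞 K := RingOfIntegers.mapRingEquiv σ
    have hs : s Z = e * Z ^ 2 := by
      rw [← hZa]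
      apply RingOfIntegers.ext
      rw [RingOfIntegers.mapRingEquiv_apply, hZc, hσ]
      rfl
    have he2 : (e : 𝓞 K) ^ 2 = 1 := by rcases he with rfl | rfl <;> simp
    have hsξ : s ξ = ξ ^ 2 := by
      have a1 : s Z = e * s ξ := by rw [hξ, map_mul, map_intCast]
      rw [hs, hξ] at a1
      linear_combination (-(e : 𝓞 K)) * a1 - (s ξ - (e ^ 2 + 1) * ξ ^ 2) * he2
    obtain ⟨j, hj⟩ := hl'
    have hθ2 : (ξ ^ (j + 1)) ^ 2 = ξ := by
      rw [← pow_mul, show (j + 1) * 2 = l' + 1 by omega, pow_succ, hξl, one_mul]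
    have hθ' : ξ ^ (j + 1) * ξ ^ j = 1 := by
      rw [← pow_add, show j + 1 + j = l' by omega, hξl]
    have hfr := frob_all (s : 𝓞 K →+* 𝓞 K) Z htop (by
      change (2 : 𝓞 K) ∣ Z ^ 2 - s Z
      rw [hs]
      rcases he with rfl | rfl
      · simp
      · exact ⟨Z ^ 2, by push_cast; ring⟩) g
    have hζe : ζ = e * (ξ : K) := by
      have := congrArg (algebraMap (𝓞 K) K) hξ
      rw [map_mul, map_intCast] at this
      exact this
    have hinve : ζ⁻¹ = e * ((ξ : K) ^ j) ^ 2 := by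
      apply inv_eq_of_mul_eq_one_right
      have a1 := congrArg (algebraMap (𝓞 K) K) he2
      have a2 := congrArg (algebraMap (𝓞 K) K) hξl
      simp only [map_pow, map_intCast, map_one] at a1 a2
      rw [hj] at a2
      rw [hζe]
      change (ξ : K) ^ (2 * j + 1) = 1 at a2
      linear_combination (ξ : K) ^ (2 * j + 1) * a1 + a2
    have hres := odd_case (fun n hn => odd_not_dvd n hn) h2 s (ξ ^ (j + 1)) (ξ ^ j) g l' ⟨j, hj⟩
      (by rw [← pow_mul, mul_comm, pow_mul, hξl, one_pow]) hθ'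
      (by rw [map_pow, hsξ, ← pow_mul, ← pow_mul, mul_comm]) hfr m hm (by
        rw [hθ2]
        rw [hinve] at h
        rw [hζe] at h
        rcases he with rfl | rfl
        · left
          apply RingOfIntegers.ext
          change γ ^ 2 = (m : 𝓞 K) - ((ξ : K) + ((ξ : K) ^ j) ^ 2)
          simpa using h
        · right
          apply RingOfIntegers.ext
          change γ ^ 2 = (m : 𝓞 K) + ((ξ : K) + ((ξ : K) ^ j) ^ 2)
          rw [h]
          simp
          ring)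
    have hpow : ∀ n : ℕ, (ξ ^ (j + 1)) ^ n = 1 → (ξ : K) ^ n = 1 := by
      intro n hn
      have : ξ ^ n = 1 := by
        rw [← hθ2, ← pow_mul, mul_comm, pow_mul, hn, one_pow]
      simpa using congrArg (algebraMap (𝓞 K) K) this
    have hξ0 : (ξ : K) ≠ 0 := by
      intro h0
      rw [h0, mul_zero] at hζe
      exact hζ0 hζe
    have hβ : ζ + ζ⁻¹ = e * ((ξ : K) + (ξ : K)⁻¹) := by
      rw [hζe]
      rcases he with rfl | rfl <;> simp
      ring
    rw [hβ]
    by_cases h1 : (ξ : K) = 1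
    · left
      exact ⟨e * 2, by rw [h1]; push_cast; ring⟩
    have h1' : (ξ : K) - 1 ≠ 0 := sub_ne_zero.2 h1
    rcases hres with h3 | h5
    · left
      have a1 : (ξ : K) ^ 2 + ξ + 1 = 0 :=
        mul_left_cancel₀ h1' (by linear_combination hpow 3 h3)
      have a2 : (ξ : K) + (ξ : K)⁻¹ = -1 := by
        field_simp
        linear_combination a1
      exact ⟨-e, by rw [a2]; push_cast; ring⟩
    · right
      have a1 : (ξ : K) ^ 4 + (ξ : K) ^ 3 + (ξ : K) ^ 2 + ξ + 1 = 0 :=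
        mul_left_cancel₀ h1' (by linear_combination hpow 5 h5)
      have a2 : ((ξ : K) + (ξ : K)⁻¹) ^ 2 + ((ξ : K) + (ξ : K)⁻¹) - 1 = 0 := by
        field_simp
        linear_combination a1
      rcases he with rfl | rfl
      · left
        push_cast
        linear_combination a2
      · right
        push_cast
        linear_combination a2
  have hZl : Z ^ l = 1 := by
    apply RingOfIntegers.ext
    exact hζ.pow_eq_one
  rcases Nat.even_or_odd l with ⟨l', hl'⟩ | hl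
  · have hneg : Z ^ l' = -1 := by
      apply RingOfIntegers.ext
      change ζ ^ l' = -1
      exact (hζ.pow (NeZero.pos l) (a := l') (b := 2) (by omega)).eq_neg_one_of_two_right
    rcases Nat.even_or_odd l' with ⟨l'', hl''⟩ | hl2
    · have hcop : (1 + l').Coprime l := by
        rw [hl', ← two_mul, Nat.coprime_mul_iff_right]
        refine ⟨Nat.coprime_two_right.2 ⟨l'', by omega⟩, ?_⟩
        simp
      obtain ⟨τ, hτ⟩ := exists_aut hζ hcop
      let t : 𝓞 K ≃+* 𝓞 K := RingOfIntegers.mapRingEquiv τ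
      have ht : t Z = -Z := by
        have : t Z = Z ^ (1 + l') := by
          apply RingOfIntegers.ext
          rw [RingOfIntegers.mapRingEquiv_apply, hZc, hτ]
          rfl
        rw [this, pow_add, hneg]
        ring
      obtain ⟨y, hy⟩ := neg_all (t : 𝓞 K →+* 𝓞 K) Z htop ⟨Z, by
        change Z - t Z = _
        rw [ht]; ring⟩ g
      have hy' : γ - τ γ = 2 * (y : K) := congrArg (algebraMap (𝓞 K) K) hy
      have hτζ : τ ζ = -ζ := congrArg (algebraMap (𝓞 K) K) ht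
      have hτh : τ γ ^ 2 = m + (ζ + ζ⁻¹) := by
        have := congrArg τ h
        rw [map_pow, map_sub, map_add, map_inv₀, map_intCast, hτζ, inv_neg] at this
        linear_combination this
      have hint : IsIntegral ℤ ((ζ + ζ⁻¹) / 2) := by
        have e : (ζ + ζ⁻¹) / 2 = -((y : K) * (γ - y)) := by
          have : τ γ = γ - 2 * y := by linear_combination -hy'
          rw [this] at hτh
          linear_combination (1 / 4 : K) * h - (1 / 4 : K) * hτh
        rw [e]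
        exact (y.isIntegral_coe.mul (hγ.sub y.isIntegral_coe)).neg
      left
      rcases half_case hl0 hζ.pow_eq_one hint with h0 | h4
      · exact ⟨0, by simpa using h0⟩
      · have : (ζ + ζ⁻¹ - 2) * (ζ + ζ⁻¹ + 2) = 0 := by linear_combination h4
        rcases mul_eq_zero.1 this with h' | h'
        · exact ⟨2, by push_cast; linear_combination h'⟩
        · exact ⟨-2, by push_cast; linear_combination h'⟩
    · refine key (-1) (-Z) l' (2 + l') (Or.inr rfl) hl2 (by simp) ?_ ?_ ?_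
      · rw [hl2.neg_pow, hneg, neg_neg]
      · rw [hl', ← two_mul, Nat.coprime_mul_iff_right]
        refine ⟨Nat.coprime_two_right.2 (by obtain ⟨j, hj⟩ := hl2; exact ⟨j + 1, by omega⟩),
          ?_⟩
        simpa using hl2
      · rw [pow_add, hneg]
        push_cast
        ring
  · exact key 1 Z l 2 (Or.inl rfl) hl (by simp) hZl (Nat.coprime_two_left.2 hl) (by simp)

end field

end Pool.Agent.MP_45e593_co
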