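import Mathlib

namespace Pool.Agent.MP_45e593_co

/-- the Ramsey number `R(G,H)` -/
noncomputable def ramsey {α β : Type} (G : SimpleGraph α) (H : SimpleGraph β) : ℕ :=
  sInf {N | 0 < N ∧ ∀ F : SimpleGraph (Fin N), G.IsContained F ∨ H.IsContained Fᶜ}

end Pool.Agent.MP_45e593_co
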