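import Pool.Agent.MP_45e593_co.Spectral
import Pool.Agent.MP_45e593_co.Cheb
import Pool.Agent.MP_45e593_co.Defs

open Matrix Finset SimpleGraph

namespace Pool.Agent.MP_45e593_co

def NoC4 {V : Type*} (G : SimpleGraph V) : Prop :=
  ∀ x y z w, x ≠ y → z ≠ w → G.Adj x z → G.Adj y z → G.Adj x w → G.Adj y w → False

theorem noC4_iff {V : Type*} (G : SimpleGraph V) : ¬ (cycleGraph 4).IsContained G ↔ NoC4 G := by
  constructor
  · intro h x y z w hxy hzw h1 h2 h3 h4
    apply h
    have a1 := h1.ne
    have a2 := h2.ne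
    have a3 := h3.ne
    have a4 := h4.ne
    refine ⟨⟨⟨![x, z, y, w], ?_⟩, ?_⟩⟩
    · intro a b hab
      fin_cases a <;> fin_cases b <;>
        first
          | exact absurd hab (by decide)
          | simp [h1, h2, h3, h4, h1.symm, h2.symm, h3.symm, h4.symm]
    · intro a b hab
      fin_cases a <;> fin_cases b <;>
        simp_all [eq_comm]
  · rintro h ⟨f⟩
    exact h (f 0) (f 2) (f 1) (f 3) (f.injective.ne (by decide)) (f.injective.ne (by decide))
      (f.toHom.map_adj (by decide)) (f.toHom.map_adj (by decide)) (f.toHom.map_adj (by decide))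
      (f.toHom.map_adj (by decide))

theorem star_iff {V : Type*} [Fintype V] (H : SimpleGraph V) [DecidableRel H.Adj] (n : ℕ) :
    (completeBipartiteGraph (Fin 1) (Fin n)).IsContained H ↔ ∃ x, n ≤ H.degree x := by
  constructor
  · rintro ⟨f⟩
    refine ⟨f (Sum.inl 0), ?_⟩
    rw [← card_neighborSet_eq_degree]
    have := Fintype.card_le_of_injective
      (fun i : Fin n => (⟨f (Sum.inr i), f.toHom.map_adj (by simp)⟩ : H.neighborSet (f (Sum.inl 0))))
      (fun i j hij => Sum.inr_injective (f.injective (congrArg Subtype.val hij)))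
    rwa [Fintype.card_fin] at this
  · rintro ⟨x, hx⟩
    rw [← card_neighborSet_eq_degree] at hx
    obtain ⟨e⟩ := Function.Embedding.nonempty_of_card_le (α := Fin n) (β := H.neighborSet x)
      (by simpa using hx)
    refine ⟨⟨⟨Sum.elim (fun _ => x) (fun i => e i), ?_⟩, ?_⟩⟩
    · rintro (a | a) (b | b) hab
      · simp at hab
      · exact (e b).2
      · exact (e a).2.symm
      · simp at hab
    · rintro (a | a) (b | b) hab
      · rw [Subsingleton.elim a b]
      · exact absurd hab (e b).2.ne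
      · exact absurd hab.symm (e a).2.ne
      · rw [e.injective (Subtype.ext hab)]

variable {V : Type*} [Fintype V] [DecidableEq V]

omit [DecidableEq V] in
theorem sq_apply (G : SimpleGraph V) [DecidableRel G.Adj] (x y : V) :
    (G.adjMatrix ℤ * G.adjMatrix ℤ) x y = #{z ∈ G.neighborFinset x | G.Adj z y} := by
  rw [adjMatrix_mul_apply]
  simp [adjMatrix_apply]

theorem sq_le_one (G : SimpleGraph V) [DecidableRel G.Adj] (h : NoC4 G) {x y : V} (hxy : x ≠ y) :
    (G.adjMatrix ℤ * G.adjMatrix ℤ) x y ≤ 1 := by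
  rw [sq_apply]
  norm_cast
  refine card_le_one.2 fun z hz w hw => ?_
  by_contra hne
  simp only [mem_filter, mem_neighborFinset] at hz hw
  exact h x y z w hxy hne hz.1 hz.2.symm hw.1 hw.2.symm

omit [DecidableEq V] in
theorem sq_row (G : SimpleGraph V) [DecidableRel G.Adj] (x : V) :
    ∑ y, (G.adjMatrix ℤ * G.adjMatrix ℤ) x y = ∑ z ∈ G.neighborFinset x, (G.degree z : ℤ) := by
  simp only [adjMatrix_mul_apply]
  rw [sum_comm]
  refine sum_congr rfl fun z _ => ?_
  simp [adjMatrix_apply, ← card_neighborFinset_eq_degree, neighborFinset_eq_filter]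

omit [DecidableEq V] in
theorem cube_even (A : Matrix V V ℤ) (hsym : ∀ i j, A i j = A j i) (htr : ∀ i, A i i = 0) (x : V) :
    Even ((A * A * A) x x) := by
  rw [even_iff_two_dvd]
  have h := (ZMod.intCast_zmod_eq_zero_iff_dvd ((A * A * A) x x) 2).1 (by
    simp only [Matrix.mul_apply, sum_mul]
    rw [← sum_product']
    push_cast
    refine sum_involution (fun p _ => p.swap) (fun p _ => ?_) (fun p _ h0 he => h0 ?_)
      (fun p _ => mem_univ _) (fun p _ => Prod.swap_swap p)
    · simp only [Prod.fst_swap, Prod.snd_swap]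
      rw [hsym x p.1, hsym p.1 p.2, hsym p.2 x]
      have : (2 : ZMod 2) = 0 := rfl
      linear_combination ((A x p.2 : ZMod 2) * A p.2 p.1 * A p.1 x) * this
    · have : p.2 = p.1 := congrArg Prod.fst he
      rw [this, htr]
      simp)
  exact_mod_cast h

theorem no_defect_two (G : SimpleGraph V) [DecidableRel G.Adj] (k : ℕ) (hk : 4 ≤ k)
    (hN : (Fintype.card V : ℤ) = k ^ 2 - k + 3) (h : NoC4 G) (hd : ∀ x, k ≤ G.degree x) :
    k = 4 ∨ k = 12 := by
  set A := G.adjMatrix ℤ with hA
  have hk' : (4 : ℤ) ≤ k := by exact_mod_cast hk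
  have hdiag : ∀ x, (A * A) x x = G.degree x := fun x => G.adjMatrix_mul_self_apply_self x
  have hreg : ∀ x, G.degree x = k := by
    intro x
    refine le_antisymm ?_ (hd x)
    have h1 : (G.degree x : ℤ) * k ≤ ∑ y, (A * A) x y := by
      rw [sq_row, ← card_neighborFinset_eq_degree, ← nsmul_eq_mul, ← sum_const]
      exact sum_le_sum fun z _ => by exact_mod_cast hd z
    have h2 : ∑ y, (A * A) x y ≤ G.degree x + (Fintype.card V - 1) := by
      rw [← add_sum_erase _ _ (mem_univ x), hdiag]
      refine add_le_add le_rfl ((sum_le_sum fun y hy => sq_le_one G h (mem_erase.1 hy).1.symm).trans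
        (le_of_eq ?_))
      rw [sum_const, card_erase_of_mem (mem_univ x), card_univ, nsmul_eq_mul, mul_one,
        Nat.cast_sub (Fintype.card_pos_iff.2 ⟨x⟩), Nat.cast_one]
    by_contra hn
    have h3 : (k : ℤ) + 1 ≤ G.degree x := by exact_mod_cast not_le.1 hn
    nlinarith
  have hne : Nonempty V := Fintype.card_pos_iff.1 (by
    have : (0 : ℤ) < Fintype.card V := by nlinarith
    exact_mod_cast this)
  have hke : Even k := by
    have h1 := G.sum_degrees_eq_twice_card_edges
    simp only [hreg, sum_const, card_univ, smul_eq_mul] at h1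
    have h2 : Even (Fintype.card V * k) := ⟨#G.edgeFinset, by omega⟩
    rcases Nat.even_mul.1 h2 with h3 | h3
    · exfalso
      have h4 : Even (Fintype.card V : ℤ) := by exact_mod_cast h3
      obtain ⟨a, ha⟩ := Int.even_mul_pred_self (k : ℤ)
      obtain ⟨b, hb⟩ := h4
      have : (k : ℤ) ^ 2 - k = a + a := by rw [← ha]; ring
      omega
    · exact h3
  rcases hk.eq_or_lt with rfl | hk5
  · exact Or.inl rfl
  have hk6 : (6 : ℤ) ≤ k := by obtain ⟨a, ha⟩ := hke; omega
  let B : Matrix V V ℤ := fun i j => (if i = j then (k : ℤ) - 1 else 0) + 1 - (A * A) i j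
  have hsym : ∀ i j, A i j = A j i := fun i j => by simp [hA, adjMatrix_apply, adj_comm]
  have htr : ∀ i, A i i = 0 := fun i => by simp [hA]
  have hrow : ∀ i, ∑ j, A i j = k := fun i => by
    rw [← hreg i]
    simp [hA, adjMatrix_apply, ← card_neighborFinset_eq_degree, neighborFinset_eq_filter]
  have hB0 : ∀ i j, 0 ≤ B i j := by
    intro i j
    by_cases hij : i = j
    · subst hij
      simp [B, hdiag, hreg]
    · have := sq_le_one G h hij
      simp only [B, hij, if_false]
      linarith
  have hBrow : ∀ i, ∑ j, B i j = 2 := by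
    intro i
    simp only [B, sum_sub_distrib, sum_add_distrib, sum_ite_eq, mem_univ, if_true, sum_const,
      card_univ, nsmul_eq_mul, mul_one]
    rw [sq_row]
    simp only [hreg, sum_const, card_neighborFinset_eq_degree, nsmul_eq_mul]
    linarith
  obtain ⟨s, p, h1, h2, h3⟩ := spectral A B k (by exact_mod_cast hke) hk6 hsym htr hrow hB0 hBrow
    (fun i j => by simp [B])
  have hBsym : ∀ i j, B i j = B j i := by
    intro i j
    simp only [B, eq_comm (a := i), Matrix.mul_apply]
    congr 1
    exact sum_congr rfl fun l _ => by rw [hsym i l, hsym l j, mul_comm]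
  by_cases hs : (k : ℤ) = s ^ 2
  · refine (Def2.square_case (A := A) (B := B) ⟨⟨hBsym, fun i => by simp [B, hdiag, hreg],
      fun i j => ?_, hBrow⟩, hsym, htr, fun i j => ?_, hrow, fun i j => by simp [B], hN⟩
      hk6 hs h1 h3).elim
    · by_cases hij : i = j
      · subst hij
        simp [B, hdiag, hreg]
      · have a3 : 0 ≤ (A * A) i j := by rw [hA, sq_apply]; positivity
        have := hB0 i j
        simp only [B, hij, if_false] at this ⊢
        omega
    · simp only [hA, adjMatrix_apply]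
      split_ifs <;> simp
  have h4 := abs_le.1 h2
  have h5 : |s| ∣ |(k : ℤ) - s ^ 2| := by
    rw [abs_dvd_abs]
    exact ⟨-p - s, by linarith⟩
  have h6 := Int.le_of_dvd (abs_pos.2 (sub_ne_zero.2 hs)) h5
  have h7 : |(k : ℤ) - s ^ 2| ≤ 3 := abs_le.2 ⟨by linarith, by linarith⟩
  have h8 : 2 ≤ |s| := by
    by_contra hn
    have := abs_nonneg s
    rw [← sq_abs] at h4
    nlinarith
  have h9 : s ^ 2 = |s| ^ 2 := (sq_abs s).symm
  have h10 : |s| = 2 ∨ |s| = 3 := by omega
  rcases h10 with h10 | h10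
  swap
  · right
    rw [h10] at h6 h9
    rw [h9] at h4 h6
    rcases le_abs.1 h6 with h | h <;> omega
  exfalso
  rw [h10] at h9
  have hk6' : (k : ℤ) = 6 := by obtain ⟨a, ha⟩ := hke; omega
  have htr3 : (A * A * A).trace = 192 := by
    rw [← pow_three', show 3 = 2 * 1 + 1 from rfl, h3, hk6']
    have : s * p = -6 := by linarith
    linear_combination s ^ 2 * this - 6 * h9
  let c : V → ℤ := fun x => ∑ y, A x y * B x y
  have hA0 : ∀ x y, 0 ≤ A x y := fun x y => by
    simp only [hA, adjMatrix_apply]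
    split_ifs <;> norm_num
  have hc : ∀ x, (A * A * A) x x = 6 - c x := by
    intro x
    rw [Matrix.mul_apply, ← hk6', ← hrow x, ← sum_sub_distrib]
    refine sum_congr rfl fun y _ => ?_
    by_cases hxy : x = y
    · subst hxy
      simp [htr]
    · simp only [B, hxy, if_false, hsym y x]
      ring
  have hsumc : ∑ x, c x = 6 := by
    have : (A * A * A).trace = ∑ x, (6 - c x) := sum_congr rfl fun x _ => hc x
    rw [htr3, sum_sub_distrib, sum_const, card_univ, nsmul_eq_mul, hN, hk6'] at this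
    linarith
  have hc0 : ∀ x, 0 ≤ c x := fun x => sum_nonneg fun y _ => mul_nonneg (hA0 x y) (hB0 x y)
  have hce : ∀ x, Even (c x) := fun x => by
    obtain ⟨a, ha⟩ := cube_even A hsym htr x
    exact ⟨3 - a, by rw [hc] at ha; linarith⟩
  have hAB : ∀ x y, A x y * B x y ≠ 0 → G.Adj x y ∧ (A * A) x y = 0 ∧ A x y * B x y = 1 := by
    intro x y h0
    have a1 : G.Adj x y := by
      by_contra hn
      exact h0 (by simp [hA, hn])
    have a2 : A x y = 1 := by simp [hA, a1]
    have a3 : 0 ≤ (A * A) x y := by rw [hA, sq_apply]; positivity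
    have a4 := hB0 x y
    rw [a2, one_mul] at h0 ⊢
    simp only [B, a1.ne, if_false] at h0 a4 ⊢
    exact ⟨a1, by omega, by omega⟩
  have hoth : ∀ x y, A x y * B x y ≠ 0 → 2 ≤ c x ∧ ∃ z, z ≠ y ∧ A x z * B x z ≠ 0 := by
    intro x y h0
    have a1 := (hAB x y h0).2.2
    have a2 : c x = 1 + ∑ z ∈ univ.erase y, A x z * B x z := by
      rw [← a1]
      exact (add_sum_erase _ _ (mem_univ y)).symm
    have a3 : 0 ≤ ∑ z ∈ univ.erase y, A x z * B x z :=
      sum_nonneg fun z _ => mul_nonneg (hA0 x z) (hB0 x z)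
    obtain ⟨b, hb⟩ := hce x
    refine ⟨by omega, ?_⟩
    obtain ⟨z, hz, hz0⟩ := exists_ne_zero_of_sum_ne_zero
      (s := univ.erase y) (f := fun z => A x z * B x z) (by omega)
    exact ⟨z, (mem_erase.1 hz).1, hz0⟩
  have hsw : ∀ x y, A x y * B x y ≠ 0 → A y x * B y x ≠ 0 := fun x y h0 => by
    rwa [hsym y x, hBsym y x]
  obtain ⟨x, -, hx⟩ := exists_ne_zero_of_sum_ne_zero (s := univ) (f := c) (by omega)
  obtain ⟨y, -, hy⟩ := exists_ne_zero_of_sum_ne_zero hx
  obtain ⟨cx, z, hzy, hz⟩ := hoth x y hy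
  obtain ⟨cy, y', hy'x, hy'⟩ := hoth y x (hsw _ _ hy)
  have cz := (hoth z x (hsw _ _ hz)).1
  have cy' := (hoth y' y (hsw _ _ hy')).1
  have axy := (hAB x y hy).1
  have axz := (hAB x z hz).1
  have ayy' := (hAB y y' hy').1
  by_cases hzz : y' = z
  · subst hzz
    have := (hAB y y' hy').2.1
    rw [hA, sq_apply] at this
    have h0 : #{w ∈ G.neighborFinset y | G.Adj w y'} = 0 := by exact_mod_cast this
    rw [card_eq_zero] at h0
    have : x ∈ ({w ∈ G.neighborFinset y | G.Adj w y'} : Finset V) := by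
      simp [axy.symm, axz]
    rw [h0] at this
    simp at this
  · have := sum_le_sum_of_subset_of_nonneg (f := c) (subset_univ {x, y, z, y'})
      fun i _ _ => hc0 i
    rw [sum_insert (by simp [axy.ne, axz.ne, hy'x.symm]),
      sum_insert (by simp [hzy.symm, ayy'.ne]), sum_pair (Ne.symm hzz)] at this
    linarith

theorem upper_mem (m : ℕ) (hm : 4 ≤ m) (h11 : m ≠ 11)
    (F : SimpleGraph (Fin (m ^ 2 + m + 3))) :
    (cycleGraph 4).IsContained F ∨
      (completeBipartiteGraph (Fin 1) (Fin (m ^ 2 + 2))).IsContained Fᶜ := by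
  classical
  by_contra hn
  rw [not_or, noC4_iff, star_iff, not_exists] at hn
  rcases no_defect_two F (m + 1) (by omega) (by simp; ring) hn.1 (fun x => by
    have := hn.2 x
    rw [degree_compl, Fintype.card_fin] at this
    omega) with h | h <;> omega

theorem ramsey_upper (m : ℕ) (hm : 4 ≤ m) (h11 : m ≠ 11) :
    ramsey (cycleGraph 4) (completeBipartiteGraph (Fin 1) (Fin (m ^ 2 + 2))) ≤ m ^ 2 + m + 3 :=
  Nat.sInf_le ⟨by omega, upper_mem m hm h11⟩

end Pool.Agent.MP_45e593_co
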