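import Pool.Agent.MP_45e593_co.Cyclo

open Polynomial NumberField IntermediateField

namespace Pool.Agent.MP_45e593_co

theorem even_odd_split {L : Type*} [Field L] [Algebra ℚ L] (F : IntermediateField ℚ L) (γ : L)
    (h : γ ^ 2 ∈ F) (p : ℚ[X]) :
    ∃ a ∈ F, ∃ b ∈ F, aeval γ p = a + b * γ ∧ aeval (-γ) p = a - b * γ := by
  induction p using Polynomial.induction_on with
  | C c => exact ⟨algebraMap ℚ L c, F.algebraMap_mem c, 0, F.zero_mem, by simp, by simp⟩
  | add p q hp hq =>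
    obtain ⟨a, ha, b, hb, h1, h2⟩ := hp
    obtain ⟨a', ha', b', hb', h1', h2'⟩ := hq
    exact ⟨a + a', F.add_mem ha ha', b + b', F.add_mem hb hb', by rw [map_add, h1, h1']; ring,
      by rw [map_add, h2, h2']; ring⟩
  | monomial n c hp =>
    obtain ⟨a, ha, b, hb, h1, h2⟩ := hp
    refine ⟨b * γ ^ 2, F.mul_mem hb h, a, ha, ?_, ?_⟩
    · rw [pow_succ, ← mul_assoc, map_mul, h1, aeval_X]; ring
    · rw [pow_succ, ← mul_assoc, map_mul, h2, aeval_X]; ring

theorem mem_of_neg_not_root {L : Type*} [Field L] [CharZero L] (F : IntermediateField ℚ L) (γ : L)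
    (h : γ ^ 2 ∈ F) (hneg : aeval (-γ) (minpoly ℚ γ) ≠ 0) : γ ∈ F := by
  obtain ⟨a, ha, b, hb, h1, h2⟩ := even_odd_split F γ h (minpoly ℚ γ)
  rw [minpoly.aeval] at h1
  have hb0 : b ≠ 0 := by
    rintro rfl
    apply hneg
    rw [h2]
    linear_combination -h1
  have : γ = -a / b := by
    field_simp
    linear_combination -h1
  rw [this]
  exact F.div_mem (F.neg_mem ha) hb

theorem quad_rep {L : Type*} [Field L] [CharZero L] (β : L) (u v : ℚ)
    (h : β ^ 2 = u + v * β) (x : L) (hx : x ∈ ℚ⟮β⟯) : ∃ a b : ℚ, x = a + b * β := by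
  have halg : IsAlgebraic ℚ β := by
    refine ⟨X ^ 2 - (C v * X + C u), (monic_X_pow_sub ?_).ne_zero, ?_⟩
    · exact degree_linear_lt
    · simp [h]
      ring
  have hx' : x ∈ Algebra.adjoin ℚ {β} := by
    rw [← adjoin_simple_toSubalgebra_of_isAlgebraic halg]
    exact hx
  clear hx
  induction hx' using Algebra.adjoin_induction with
  | mem y hy => exact ⟨0, 1, by simp [Set.mem_singleton_iff.1 hy]⟩
  | algebraMap n => exact ⟨n, 0, by simp⟩
  | add y z _ _ hy hz =>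
    obtain ⟨a, b, h1⟩ := hy
    obtain ⟨c, d, h2⟩ := hz
    exact ⟨a + c, b + d, by rw [h1, h2]; push_cast; ring⟩
  | mul y z _ _ hy hz =>
    obtain ⟨a, b, h1⟩ := hy
    obtain ⟨c, d, h2⟩ := hz
    exact ⟨a * c + b * d * u, a * d + b * c + b * d * v, by
      rw [h1, h2]; push_cast; linear_combination (b * d : L) * h⟩

theorem norm_one_of_quad (z : ℂ) (b : ℝ) (hb : |b| ≤ 2) (h : z ^ 2 - b * z + 1 = 0) : ‖z‖ = 1 := by
  have h1 := congrArg Complex.re h
  have h2 := congrArg Complex.im h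
  simp [pow_two] at h1 h2
  have h3 : z.re ^ 2 + z.im ^ 2 = 1 := by
    by_cases hy : z.im = 0
    · rw [hy] at h1 ⊢
      have hb2 : b ^ 2 ≤ 4 := by nlinarith [abs_le.1 hb]
      have : (z.re - b / 2) ^ 2 = 0 := by nlinarith [sq_nonneg (z.re - b / 2)]
      have : z.re = b / 2 := by nlinarith
      nlinarith
    · have : b = 2 * z.re := mul_right_cancel₀ hy (by linarith)
      rw [this] at h1
      linarith
  have h4 : ‖z‖ ^ 2 = 1 := by rw [Complex.sq_norm, Complex.normSq_apply]; linarith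
  nlinarith [norm_nonneg z]

theorem golden (m : ℤ) (h3 : 3 ≤ m) (e : ℤ) (he : e = 1 ∨ e = -1) (w : ℚ)
    (h : w ^ 2 = m ^ 2 + e * m - 1) : False := by
  have h1 : IsSquare ((m ^ 2 + e * m - 1 : ℤ) : ℚ) := ⟨w, by push_cast; rw [← h]; ring⟩
  obtain ⟨s, hs⟩ := Rat.isSquare_intCast_iff.1 h1
  have h2 : |s| * |s| = m ^ 2 + e * m - 1 := by rw [abs_mul_abs_self, hs]
  have h0 := abs_nonneg s
  rcases he with rfl | rfl
  · rcases le_or_gt |s| m with h4 | h4 <;> nlinarith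
  · rcases le_or_gt m |s| with h4 | h4 <;> nlinarith

theorem key (γ : ℂ) (hγ : IsIntegral ℤ γ) (m : ℤ) (hm : Odd m) (h3 : 3 ≤ m)
    (hconj : ∀ z : ℂ, aeval z (minpoly ℚ γ) = 0 → ∃ b : ℝ, |b| ≤ 2 ∧ z ^ 2 = m - b)
    (hneg : aeval (-γ) (minpoly ℚ γ) ≠ 0) : ∃ c : ℤ, γ = c := by
  set β : ℂ := m - γ ^ 2 with hβ
  have hβi : IsIntegral ℤ β := (isIntegral_algebraMap (x := m)).sub (hγ.pow 2)
  obtain ⟨s, hs⟩ := IsAlgClosed.exists_pow_nat_eq (β ^ 2 - 4) (n := 2) (by norm_num)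
  set ζ : ℂ := (β + s) / 2 with hζ
  have hq : ζ ^ 2 - β * ζ + 1 = 0 := by rw [hζ]; linear_combination (1 / 4 : ℂ) * hs
  have hζ0 : ζ ≠ 0 := by
    intro h0
    rw [h0] at hq
    simp at hq
  have hsum : ζ + ζ⁻¹ = β := by
    field_simp
    linear_combination hq
  have hζi : IsIntegral ℤ ζ := by
    refine isIntegral_trans (A := integralClosure ℤ ℂ) ζ
      ⟨X ^ 2 - (C ⟨β, hβi⟩ * X + C (-1)), monic_X_pow_sub degree_linear_lt, ?_⟩
    simp only [eval₂_sub, eval₂_pow, eval₂_X, eval₂_add, eval₂_mul, eval₂_C, map_neg, map_one,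
      eval₂_neg, eval₂_one]
    change ζ ^ 2 - (β * ζ + -1) = 0
    linear_combination hq
  have hζq : IsIntegral ℚ ζ := hζi.tower_top
  have hγβ : γ ∈ ℚ⟮β⟯ := by
    refine mem_of_neg_not_root _ γ ?_ hneg
    have : γ ^ 2 = m - β := by rw [hβ]; ring
    rw [this]
    exact sub_mem (intCast_mem _ m) (mem_adjoin_simple_self ℚ β)
  have hβζ : β ∈ ℚ⟮ζ⟯ := by
    rw [← hsum]
    exact add_mem (mem_adjoin_simple_self ℚ ζ) (inv_mem (mem_adjoin_simple_self ℚ ζ))
  have hγζ : γ ∈ ℚ⟮ζ⟯ := (adjoin_simple_le_iff.2 hβζ) hγβ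
  have hfd : FiniteDimensional ℚ ℚ⟮ζ⟯ := adjoin.finiteDimensional hζq
  have hnf : NumberField ℚ⟮ζ⟯ := {}
  let Z : ℚ⟮ζ⟯ := ⟨ζ, mem_adjoin_simple_self ℚ ζ⟩
  let g : ℚ⟮ζ⟯ := ⟨γ, hγζ⟩
  have hZi : IsIntegral ℤ Z :=
    (isIntegral_algHom_iff (ℚ⟮ζ⟯.val.restrictScalars ℤ) Subtype.val_injective).1 hζi
  have hgi : IsIntegral ℤ g :=
    (isIntegral_algHom_iff (ℚ⟮ζ⟯.val.restrictScalars ℤ) Subtype.val_injective).1 hγ
  have hqK : Z ^ 2 - (m - g ^ 2) * Z + 1 = 0 := Subtype.val_injective hq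
  obtain ⟨n, hn0, hn⟩ := Embeddings.pow_eq_one_of_norm_eq_one ℚ⟮ζ⟯ ℂ hZi fun φ => by
    have a1 : aeval (φ g) (minpoly ℚ γ) = 0 := by
      have : minpoly ℚ γ = minpoly ℚ g := (IntermediateField.minpoly_eq g).symm
      rw [this]
      have := aeval_algHom_apply φ.toRatAlgHom g (minpoly ℚ g)
      rw [minpoly.aeval, map_zero] at this
      exact this
    obtain ⟨b, hb, hb2⟩ := hconj _ a1
    refine norm_one_of_quad _ b hb ?_
    have := congrArg φ hqK
    simp only [map_add, map_sub, map_mul, map_pow, map_intCast, map_one, map_zero] at this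
    linear_combination this - φ Z * hb2
  have hn' : ζ ^ n = 1 := congrArg Subtype.val hn
  have hfin : IsOfFinOrder ζ := isOfFinOrder_iff_pow_eq_one.2 ⟨n, hn0, hn'⟩
  have hne : NeZero (orderOf ζ) := ⟨hfin.orderOf_pos.ne'⟩
  have hprim : IsPrimitiveRoot ζ (orderOf ζ) := IsPrimitiveRoot.orderOf ζ
  have hcyc : IsCyclotomicExtension {orderOf ζ} ℚ ℚ⟮ζ⟯ := by
    change IsCyclotomicExtension {orderOf ζ} ℚ (ℚ⟮ζ⟯).toSubalgebra
    rw [adjoin_simple_toSubalgebra_of_isAlgebraic hζq.isAlgebraic]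
    exact hprim.adjoin_isCyclotomicExtension ℚ
  have hprimK : IsPrimitiveRoot Z (orderOf ζ) := IsPrimitiveRoot.coe_submonoidClass_iff.mp hprim
  have hc := cyclo hprimK g hgi m hm (Subtype.val_injective (by
    change γ ^ 2 = m - (ζ + ζ⁻¹)
    rw [hsum, hβ]
    ring))
  have hrat : ∃ a : ℚ, γ = a := by
    have gold : ∀ e : ℤ, (e = 1 ∨ e = -1) → β ^ 2 + e * β - 1 = 0 → ∃ a : ℚ, γ = a := by
      intro e he hb
      obtain ⟨a, b, hab⟩ := quad_rep β 1 (-e) (by push_cast; linear_combination hb) γ hγβ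
      have e1 : ((a ^ 2 + b ^ 2 - m : ℚ) : ℂ) + ((2 * a * b - e * b ^ 2 + 1 : ℚ) : ℂ) * β = 0 := by
        have : γ ^ 2 = m - β := by rw [hβ]; ring
        rw [hab] at this
        push_cast
        linear_combination this - (b : ℂ) ^ 2 * hb
      by_cases h0 : (2 * a * b - e * b ^ 2 + 1 : ℚ) = 0
      · exfalso
        rw [h0] at e1
        have h1 : (a ^ 2 + b ^ 2 - m : ℚ) = 0 := by
          rw [Rat.cast_zero, zero_mul, add_zero] at e1
          exact_mod_cast e1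
        have he2 : (e : ℚ) ^ 2 = 1 := by rcases he with rfl | rfl <;> norm_num
        refine golden m h3 e he (a ^ 2 - e * a * b - b ^ 2) ?_
        have hm' : (m : ℚ) = a ^ 2 + b ^ 2 := by linarith
        rw [hm']
        linear_combination (-(e * (a ^ 2 + b ^ 2)) - (2 * a * b - e * b ^ 2 - 1)) * h0 +
          (a ^ 2 * b ^ 2 - (a ^ 2 + b ^ 2) * b ^ 2 + b ^ 4) * he2
      · have h0' : ((2 * a * b - e * b ^ 2 + 1 : ℚ) : ℂ) ≠ 0 := by exact_mod_cast h0
        refine ⟨a + b * (-(a ^ 2 + b ^ 2 - m) / (2 * a * b - e * b ^ 2 + 1)), ?_⟩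
        have : β = -((a ^ 2 + b ^ 2 - m : ℚ) : ℂ) / ((2 * a * b - e * b ^ 2 + 1 : ℚ) : ℂ) := by
          rw [eq_div_iff h0']
          linear_combination e1
        rw [hab, this]
        push_cast
        ring
    rcases hc with ⟨b, hb⟩ | hb | hb
    · have hb' : β = b := by
        rw [← hsum]
        exact congrArg Subtype.val hb
      obtain ⟨a, c, hac⟩ := quad_rep β 0 b (by rw [hb']; push_cast; ring) γ hγβ
      exact ⟨a + c * b, by rw [hac, hb']; push_cast; ring⟩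
    · refine gold 1 (Or.inl rfl) ?_
      rw [← hsum]
      have := congrArg Subtype.val hb
      push_cast at this ⊢
      linear_combination this
    · refine gold (-1) (Or.inr rfl) ?_
      rw [← hsum]
      have := congrArg Subtype.val hb
      push_cast at this ⊢
      linear_combination this
  obtain ⟨a, ha⟩ := hrat
  have hai : IsIntegral ℤ a := by
    rw [← isIntegral_algebraMap_iff (algebraMap ℚ ℂ).injective]
    rw [ha] at hγ
    exact hγ
  obtain ⟨y, hy⟩ := IsIntegrallyClosed.isIntegral_iff.1 hai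
  exact ⟨y, by rw [ha, ← hy]; simp⟩

theorem mult_symm (P : ℚ[X]) (hP : P ≠ 0) (γ : ℝ) (hγ : IsIntegral ℚ γ)
    (h : aeval (-γ) (minpoly ℚ γ) = 0) :
    rootMultiplicity γ (P.map (algebraMap ℚ ℝ)) = rootMultiplicity (-γ) (P.map (algebraMap ℚ ℝ)) := by
  have hirr := minpoly.irreducible hγ
  have hmin : minpoly ℚ γ = minpoly ℚ (-γ) :=
    minpoly.eq_of_irreducible_of_monic hirr h (minpoly.monic hγ)
  obtain ⟨n, Q, hQ, rfl⟩ := WfDvdMonoid.max_power_factor hP hirr
  have hsep : ((minpoly ℚ γ).map (algebraMap ℚ ℝ)).Separable := hirr.separable.map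
  have hg0 : (minpoly ℚ γ).map (algebraMap ℚ ℝ) ≠ 0 := map_ne_zero hirr.ne_zero
  have hQ0 : Q.map (algebraMap ℚ ℝ) ≠ 0 := map_ne_zero (right_ne_zero_of_mul hP)
  have aux : ∀ x : ℝ, minpoly ℚ γ = minpoly ℚ x → ∀ n : ℕ,
      rootMultiplicity x (((minpoly ℚ γ) ^ n * Q).map (algebraMap ℚ ℝ)) = n := by
    intro x hx n
    induction n with
    | zero =>
      rw [pow_zero, one_mul]
      apply rootMultiplicity_eq_zero
      intro hr
      apply hQ
      rw [hx]
      apply minpoly.dvd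
      rwa [aeval_def, ← eval_map]
    | succ n ih =>
      rw [pow_succ', mul_assoc, Polynomial.map_mul, rootMultiplicity_mul, ih, add_comm]
      · congr 1
        refine le_antisymm (rootMultiplicity_le_one_of_separable hsep x) ?_
        refine (rootMultiplicity_pos hg0).2 ?_
        rw [IsRoot, eval_map, ← aeval_def, hx, minpoly.aeval]
      · exact mul_ne_zero hg0 (map_ne_zero (mul_ne_zero (pow_ne_zero _ hirr.ne_zero)
          (right_ne_zero_of_mul hP)))
  rw [aux γ rfl, aux (-γ) hmin]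

end Pool.Agent.MP_45e593_co
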