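import Pool.Agent.MP_45e593_co.Graph

open Finset SimpleGraph

namespace Pool.Agent.MP_45e593_co

theorem not_mem_of_witness {α β W : Type} [Fintype W] (G : SimpleGraph α) (H : SimpleGraph β)
    (F : SimpleGraph W) (h1 : ¬ G.IsContained F) (h2 : ¬ H.IsContained Fᶜ) (N : ℕ)
    (hN : ∀ F : SimpleGraph (Fin N), G.IsContained F ∨ H.IsContained Fᶜ) : Fintype.card W < N := by
  by_contra hn
  obtain ⟨e⟩ := Function.Embedding.nonempty_of_card_le (α := Fin N) (β := W) (by simpa using hn)
  rcases hN (F.comap e) with h | h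
  · exact h1 (h.trans ⟨(Embedding.comap e F).toCopy⟩)
  · have : (F.comap e)ᶜ = Fᶜ.comap e := by
      ext a b
      simp
    rw [this] at h
    exact h2 (h.trans ⟨(Embedding.comap e Fᶜ).toCopy⟩)

variable {K : Type} [Field K] [CharP K 2]

/-- part of the polarity graph in characteristic two -/
def pol (c : Fin 2 ↪ Kˣ) : SimpleGraph ((Kˣ × K) ⊕ Fin 2) where
  Adj
    | .inl a, .inl b => a.2 + b.2 = a.1 * b.1
    | .inl a, .inr i => a.1 = c i
    | .inr i, .inl a => a.1 = c i
    | .inr _, .inr _ => False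
  symm := ⟨by
    rintro (a | a) (b | b) h
    · change b.2 + a.2 = b.1 * a.1
      rw [add_comm, mul_comm]
      exact h
    · exact h
    · exact h
    · exact h⟩
  loopless := ⟨by
    rintro (a | a) h
    · change a.2 + a.2 = a.1 * a.1 at h
      rw [CharTwo.add_self_eq_zero] at h
      exact mul_ne_zero a.1.ne_zero a.1.ne_zero h.symm
    · exact h⟩

theorem pol_noC4 (c : Fin 2 ↪ Kˣ) : NoC4 (pol c) := by
  have key : ∀ a b u : Kˣ × K, a.1 = b.1 → a.2 + u.2 = a.1 * u.1 → b.2 + u.2 = b.1 * u.1 → a = b :=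
    fun a b u h h1 h2 => Prod.ext h (by rw [h] at h1; linear_combination h1 - h2)
  rintro (x | x) (y | y) (z | z) (w | w) hxy hzw h1 h2 h3 h4
  · change x.2 + z.2 = x.1 * z.1 at h1
    change y.2 + z.2 = y.1 * z.1 at h2
    change x.2 + w.2 = x.1 * w.1 at h3
    change y.2 + w.2 = y.1 * w.1 at h4
    have : ((x.1 : K) - y.1) * ((z.1 : K) - w.1) = 0 := by linear_combination -h1 + h2 + h3 - h4
    rcases mul_eq_zero.1 this with h | h
    · exact hxy (congrArg _ (key x y z (Units.ext (sub_eq_zero.1 h)) h1 h2))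
    · exact hzw (congrArg _ (key z w x (Units.ext (sub_eq_zero.1 h))
        (by linear_combination h1) (by linear_combination h3)))
  · exact hxy (congrArg _ (key x y z (Eq.trans h3 (Eq.symm h4)) h1 h2))
  · exact hxy (congrArg _ (key x y w (Eq.trans h1 (Eq.symm h2)) h3 h4))
  · exact hzw (congrArg _ (c.injective (Eq.trans (Eq.symm h1) h3)))
  · exact hzw (congrArg _ (key z w x (Eq.trans h2 (Eq.symm h4)) ((pol c).adj_symm h1)
      ((pol c).adj_symm h3)))
  · exact h4
  · exact h2
  · exact h2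
  · exact hzw (congrArg _ (key z w y (Eq.trans h1 (Eq.symm h3)) ((pol c).adj_symm h2)
      ((pol c).adj_symm h4)))
  · exact h3
  · exact h1
  · exact h1
  · exact hxy (congrArg _ (c.injective (Eq.trans (Eq.symm h1) h2)))
  · exact h3
  · exact h1
  · exact h1

theorem pol_degree [Fintype K] [DecidableEq K] (c : Fin 2 ↪ Kˣ) [DecidableRel (pol c).Adj]
    (v : (Kˣ × K) ⊕ Fin 2) : Fintype.card K - 1 ≤ (pol c).degree v := by
  rw [← card_neighborSet_eq_degree, ← Fintype.card_units]
  rcases v with a | i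
  · refine Fintype.card_le_of_injective
      (fun x : Kˣ => ⟨.inl (x, a.1 * x - a.2), by
        change a.2 + (a.1 * x - a.2) = a.1 * x
        ring⟩) fun x y h => ?_
    exact congrArg Prod.fst (Sum.inl_injective (congrArg Subtype.val h))
  · refine Fintype.card_le_of_injective
      (fun x : Kˣ => ⟨.inl (c i, x), rfl⟩) fun x y h => ?_
    exact Units.ext (congrArg Prod.snd (Sum.inl_injective (congrArg Subtype.val h)))

theorem ramsey_exact (e : ℕ) (h3 : 3 ≤ e) :
    ramsey (cycleGraph 4) (completeBipartiteGraph (Fin 1) (Fin ((2 ^ e - 1) ^ 2 + 2))) =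
      (2 ^ e - 1) ^ 2 + 2 ^ e + 2 := by
  classical
  have h8 : 8 ≤ 2 ^ e := by
    calc 8 = 2 ^ 3 := by norm_num
      _ ≤ 2 ^ e := Nat.pow_le_pow_right (by norm_num) h3
  obtain ⟨m, hm⟩ : ∃ m, 2 ^ e = m + 1 := ⟨2 ^ e - 1, by omega⟩
  have h11 : m ≠ 11 := by
    rintro rfl
    have : 3 ∣ 2 ^ e := by rw [hm]; norm_num
    exact absurd (Nat.Prime.dvd_of_dvd_pow Nat.prime_three this) (by norm_num)
  rw [hm, Nat.add_sub_cancel]
  refine le_antisymm ((ramsey_upper m (by omega) h11).trans (by omega)) ?_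
  refine le_csInf ⟨m ^ 2 + m + 3, by omega, upper_mem m (by omega) h11⟩ ?_
  rintro N ⟨-, hN⟩
  have : Fact (Nat.Prime 2) := ⟨Nat.prime_two⟩
  let _ : Fintype (GaloisField 2 e) := Fintype.ofFinite _
  have hc : Fintype.card (GaloisField 2 e) = m + 1 := by
    rw [← Nat.card_eq_fintype_card, GaloisField.card 2 e (by omega), hm]
  obtain ⟨c⟩ := Function.Embedding.nonempty_of_card_le (α := Fin 2) (β := (GaloisField 2 e)ˣ)
    (by rw [Fintype.card_units, hc]; simp; omega)
  have hW : Fintype.card (((GaloisField 2 e)ˣ × GaloisField 2 e) ⊕ Fin 2) = m ^ 2 + m + 2 := by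
    rw [Fintype.card_sum, Fintype.card_prod, Fintype.card_units, hc, Fintype.card_fin,
      Nat.add_sub_cancel]
    ring
  have := not_mem_of_witness _ _ (pol c) ((noC4_iff _).2 (pol_noC4 c)) (by
    rw [star_iff, not_exists]
    intro v
    have := pol_degree c v
    rw [degree_compl, hW]
    omega) N hN
  omega

end Pool.Agent.MP_45e593_co
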