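import Pool.Agent.MP_45e593_co.Key

open Polynomial Matrix Finset

namespace Pool.Agent.MP_45e593_co

variable {V : Type*} [Fintype V] [DecidableEq V]

theorem eig_bound (A B : Matrix V V ℝ) (k : ℝ) (hB : ∀ i j, 0 ≤ B i j)
    (hBrow : ∀ i, ∑ j, B i j = 2)
    (hA2 : ∀ i j, (A * A) i j = (if i = j then k - 1 else 0) + 1 - B i j)
    (w : V → ℝ) (μ : ℝ) (hw : A *ᵥ w = μ • w) (h0 : w ≠ 0) (hs : ∑ i, w i = 0) :
    |k - 1 - μ ^ 2| ≤ 2 := by
  have hne : (univ : Finset V).Nonempty := by
    by_contra hn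
    exact h0 (funext fun i => (hn ⟨i, mem_univ i⟩).elim)
  obtain ⟨i, -, hi⟩ := exists_max_image univ (fun i => |w i|) hne
  have hpos : 0 < |w i| := by
    obtain ⟨j, hj⟩ := Function.ne_iff.1 h0
    exact lt_of_lt_of_le (abs_pos.2 hj) (hi j (mem_univ j))
  have h1 : ((A * A) *ᵥ w) i = μ ^ 2 * w i := by
    rw [← mulVec_mulVec, hw, mulVec_smul, hw]
    simp [pow_two, mul_assoc]
  have h2 : ((A * A) *ᵥ w) i = (k - 1) * w i - ∑ j, B i j * w j := by
    simp only [mulVec, dotProduct, hA2, sub_mul, add_mul, ite_mul, zero_mul, one_mul,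
      sum_sub_distrib, sum_add_distrib, sum_ite_eq, mem_univ, if_true, hs]
    ring
  have h3 : (k - 1 - μ ^ 2) * w i = ∑ j, B i j * w j := by linarith
  have h4 : |∑ j, B i j * w j| ≤ 2 * |w i| := by
    refine (abs_sum_le_sum_abs _ _).trans ?_
    rw [← hBrow i, sum_mul]
    refine sum_le_sum fun j _ => ?_
    rw [abs_mul, abs_of_nonneg (hB i j)]
    exact mul_le_mul_of_nonneg_left (hi j (mem_univ j)) (hB i j)
  rw [← h3, abs_mul] at h4
  exact le_of_mul_le_mul_right h4 hpos

theorem trace_pow {A : Matrix V V ℝ} (hA : A.IsHermitian) (n : ℕ) :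
    (A ^ n).trace = ∑ i, hA.eigenvalues i ^ n := by
  have h : A ^ n = Unitary.conjStarAlgAut ℝ _ hA.eigenvectorUnitary
      (diagonal fun i => hA.eigenvalues i ^ n) := by
    conv_lhs => rw [hA.spectral_theorem, ← map_pow, diagonal_pow]
    congr 2
  rw [h, Unitary.conjStarAlgAut_apply, trace_mul_comm, ← mul_assoc]
  simp

theorem spectral [Nonempty V] (A B : Matrix V V ℤ) (k : ℤ) (hk : Even k) (h6 : 6 ≤ k)
    (hsym : ∀ i j, A i j = A j i) (htr : ∀ i, A i i = 0) (hrow : ∀ i, ∑ j, A i j = k)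
    (hB : ∀ i j, 0 ≤ B i j) (hBrow : ∀ i, ∑ j, B i j = 2)
    (hA2 : ∀ i j, (A * A) i j = (if i = j then k - 1 else 0) + 1 - B i j) :
    ∃ s p : ℤ, k + s * p = 0 ∧ |k - 1 - s ^ 2| ≤ 2 ∧
      ∀ r : ℕ, (A ^ (2 * r + 1)).trace = k ^ (2 * r + 1) + s ^ (2 * r + 1) * p := by
  classical
  set Ar : Matrix V V ℝ := A.map (Int.castRingHom ℝ) with hAr
  set Br : Matrix V V ℝ := B.map (Int.castRingHom ℝ) with hBr
  have hH : Ar.IsHermitian := by
    ext i j
    simp [hAr, hsym i j]
  have hk6 : (6 : ℝ) ≤ k := by exact_mod_cast h6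
  have hrowr : ∀ i, ∑ j, Ar i j = k := fun i => by
    simp only [hAr, map_apply, eq_intCast]
    exact_mod_cast hrow i
  have hBr0 : ∀ i j, 0 ≤ Br i j := fun i j => by
    simp only [hBr, map_apply, eq_intCast]
    exact_mod_cast hB i j
  have hBrr : ∀ i, ∑ j, Br i j = 2 := fun i => by
    simp only [hBr, map_apply, eq_intCast]
    exact_mod_cast hBrow i
  have hA2r : ∀ i j, (Ar * Ar) i j = (if i = j then (k : ℝ) - 1 else 0) + 1 - Br i j := by
    intro i j
    rw [hAr, ← Matrix.map_mul, map_apply, hA2]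
    simp only [hBr, map_apply, eq_intCast]
    split_ifs <;> push_cast <;> ring
  set lam := hH.eigenvalues with hlam
  set v : V → V → ℝ := fun i => ⇑(hH.eigenvectorBasis i) with hv
  have hev : ∀ i, Ar *ᵥ v i = lam i • v i := fun i => hH.mulVec_eigenvectorBasis i
  have hv0 : ∀ i, v i ≠ 0 := fun i =>
    (WithLp.ofLp_eq_zero 2).ne.2 <| hH.eigenvectorBasis.orthonormal.ne_zero i
  have hone : Ar *ᵥ (fun _ => (1 : ℝ)) = (k : ℝ) • fun _ => (1 : ℝ) := by
    funext i
    simp [mulVec, dotProduct, hrowr]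
  have hsum : ∀ i, (lam i - k) * ∑ x, v i x = 0 := by
    intro i
    have h1 : ∑ x, (Ar *ᵥ v i) x = k * ∑ x, v i x := by
      simp only [mulVec, dotProduct]
      rw [sum_comm, mul_sum]
      refine sum_congr rfl fun y _ => ?_
      rw [← sum_mul, ← hrowr y]
      congr 1
      exact sum_congr rfl fun x _ => by simp [hAr, hsym x y]
    rw [hev] at h1
    simp only [Pi.smul_apply, smul_eq_mul, ← mul_sum] at h1
    linarith
  have hbd : ∀ i, lam i ≠ k → |(k : ℝ) - 1 - lam i ^ 2| ≤ 2 := fun i hi =>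
    eig_bound Ar Br k hBr0 hBrr hA2r (v i) _ (hev i) (hv0 i)
      ((mul_eq_zero.1 (hsum i)).resolve_left (sub_ne_zero.2 hi))
  have hn : (0 : ℝ) < Fintype.card V := by exact_mod_cast Fintype.card_pos
  have hconst : ∀ i, lam i = k → ∃ c : ℝ, v i = fun _ => c := by
    intro i hi
    refine ⟨(∑ x, v i x) / Fintype.card V, ?_⟩
    by_contra hne
    have := eig_bound Ar Br k hBr0 hBrr hA2r
      (v i - ((∑ x, v i x) / Fintype.card V) • fun _ => (1 : ℝ)) k
      (by rw [mulVec_sub, mulVec_smul, hev, hone, hi, smul_sub, smul_comm])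
      (by
        intro h0
        apply hne
        funext x
        have := congrFun h0 x
        simpa [sub_eq_zero] using this)
      (by
        simp only [Pi.sub_apply, Pi.smul_apply, smul_eq_mul, mul_one, sum_sub_distrib, sum_const,
          card_univ, nsmul_eq_mul]
        field_simp
        ring)
    have := (abs_le.1 this).1
    nlinarith
  have huniq : ∀ i j, lam i = k → lam j = k → i = j := by
    intro i j hi hj
    by_contra hne
    obtain ⟨c, hc⟩ := hconst i hi
    obtain ⟨d, hd⟩ := hconst j hj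
    have h0 := hH.eigenvectorBasis.orthonormal.2 hne
    simp only [PiLp.inner_apply, RCLike.inner_apply, conj_trivial] at h0
    have e1 : ∀ x, hH.eigenvectorBasis i x = c := fun x => congrFun hc x
    have e2 : ∀ x, hH.eigenvectorBasis j x = d := fun x => congrFun hd x
    simp only [e1, e2, sum_const, card_univ, nsmul_eq_mul] at h0
    rcases mul_eq_zero.1 ((mul_eq_zero.1 h0).resolve_left hn.ne') with h | h
    · exact hv0 j (by rw [hd, h]; rfl)
    · exact hv0 i (by rw [hc, h]; rfl)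
  have hchar : Ar.charpoly = ∏ i, (X - C (lam i)) := hH.charpoly_eq
  have hex : ∃ i0, lam i0 = k := by
    have h1 : (Matrix.scalar V (k : ℝ) - Ar).det = 0 := by
      rw [← Matrix.exists_mulVec_eq_zero_iff]
      refine ⟨fun _ => 1, fun h => one_ne_zero (congrFun h (Classical.arbitrary V)), ?_⟩
      rw [sub_mulVec, hone]
      funext i
      simp [Matrix.scalar]
    rw [← Matrix.eval_charpoly, hchar, eval_prod, prod_eq_zero_iff] at h1
    obtain ⟨i, -, hi⟩ := h1
    exact ⟨i, by simp at hi; linarith⟩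
  obtain ⟨i0, hi0⟩ := hex
  set Pq : ℚ[X] := A.charpoly.map (Int.castRingHom ℚ) with hPq
  have hPr : Pq.map (algebraMap ℚ ℝ) = Ar.charpoly := by
    rw [hPq, Polynomial.map_map, hAr, Matrix.charpoly_map]
    congr 1
  have hPq0 : Pq ≠ 0 := (A.charpoly_monic.map _).ne_zero
  have hroot : ∀ i, aeval (lam i) Pq = 0 := by
    intro i
    rw [aeval_def, ← eval_map, hPr, hchar, eval_prod]
    exact prod_eq_zero (mem_univ i) (by simp)
  have hint : ∀ i, IsIntegral ℤ (lam i) := by
    intro i
    refine ⟨A.charpoly, A.charpoly_monic, ?_⟩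
    have := hroot i
    rw [hPq, aeval_def, eval₂_map] at this
    rw [RingHom.ext_int (algebraMap ℤ ℝ) ((algebraMap ℚ ℝ).comp (Int.castRingHom ℚ))]
    exact this
  have hcnt : ∀ γ : ℝ, #{i | lam i = γ} = rootMultiplicity γ (Pq.map (algebraMap ℚ ℝ)) := by
    intro γ
    rw [hPr, ← count_roots, hH.roots_charpoly_eq_eigenvalues, Multiset.count_map]
    simp only [card_def, filter_val, eq_comm (a := γ)]
    rfl
  let pr : ℝ → Prop := fun γ => aeval (-γ) (minpoly ℚ γ) = 0
  have hpair : ∀ f : ℝ → ℝ, (∀ x, f (-x) = -f x) → ∑ i with pr (lam i), f (lam i) = 0 := by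
    intro f hf
    rw [sum_comp f lam]
    have hc : ∀ γ, pr γ → #{a ∈ (univ.filter fun i => pr (lam i)) | lam a = γ} =
        #{i | lam i = γ} := by
      intro γ hγ
      rw [filter_filter]
      congr 1
      exact filter_congr fun i _ => ⟨fun h => h.2, fun h => ⟨by rwa [h], h⟩⟩
    have hmem : ∀ γ ∈ image lam (univ.filter fun i => pr (lam i)), pr γ ∧ pr (-γ) ∧
        #{i | lam i = -γ} = #{i | lam i = γ} ∧
        -γ ∈ image lam (univ.filter fun i => pr (lam i)) := by
      intro γ hγ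
      obtain ⟨i, hi, rfl⟩ := mem_image.1 hγ
      have h1 : pr (lam i) := (mem_filter.1 hi).2
      have hq : IsIntegral ℚ (lam i) := (hint i).tower_top
      have h2 : pr (-lam i) := by
        change aeval (- -lam i) (minpoly ℚ (-lam i)) = 0
        rw [neg_neg, ← minpoly.eq_of_irreducible_of_monic (minpoly.irreducible hq) h1
          (minpoly.monic hq), minpoly.aeval]
      have h3 : #{j | lam j = -lam i} = #{j | lam j = lam i} := by
        rw [hcnt, hcnt, mult_symm Pq hPq0 _ hq h1]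
      refine ⟨h1, h2, h3, ?_⟩
      have : 0 < #{j | lam j = -lam i} := by
        rw [h3]
        exact card_pos.2 ⟨i, by simp⟩
      obtain ⟨j, hj⟩ := card_pos.1 this
      have hj' : lam j = -lam i := (mem_filter.1 hj).2
      exact mem_image.2 ⟨j, mem_filter.2 ⟨mem_univ _, by rwa [hj']⟩, hj'⟩
    refine sum_involution (fun γ _ => -γ) (fun γ hγ => ?_) (fun γ _ h0 he => ?_)
      (fun γ hγ => (hmem γ hγ).2.2.2) (fun γ _ => neg_neg γ)
    · obtain ⟨h1, h2, h3, -⟩ := hmem γ hγ
      rw [hc _ h1, hc _ h2, h3, hf]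
      simp
    · apply h0
      have : f γ = 0 := by
        have := hf γ
        rw [he] at this
        linarith
      rw [this, smul_zero]
  have hmk : minpoly ℚ (k : ℝ) = X - C (k : ℚ) := by
    have := minpoly.eq_X_sub_C ℝ (k : ℚ)
    simpa using this
  have hi0p : ¬ pr (lam i0) := by
    change aeval (-lam i0) (minpoly ℚ (lam i0)) ≠ 0
    rw [hi0, hmk]
    simp only [map_sub, aeval_X, aeval_C, eq_ratCast, Rat.cast_intCast]
    linarith
  have hZ : ∀ i, ¬ pr (lam i) → i ≠ i0 → ∃ c : ℤ, lam i = c ∧ |k - 1 - c ^ 2| ≤ 2 := by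
    intro i hi hne
    have hik : lam i ≠ k := fun h => hne (huniq i i0 h hi0)
    have hq : IsIntegral ℚ (lam i) := (hint i).tower_top
    have hmin : minpoly ℚ ((lam i : ℝ) : ℂ) = minpoly ℚ (lam i) :=
      minpoly.algebraMap_eq (algebraMap ℝ ℂ).injective (lam i)
    have hae : ∀ (x : ℝ) (p : ℚ[X]), aeval (x : ℂ) p = ((aeval x p : ℝ) : ℂ) := fun x p =>
      aeval_algebraMap_apply ℂ x p
    obtain ⟨c, hc⟩ := key (lam i) ((hint i).algebraMap (B := ℂ)) (k - 1)
      (by obtain ⟨a, ha⟩ := hk; exact ⟨a - 1, by omega⟩) (by omega)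
      (fun z hz => by
        rw [hmin] at hz
        have h1 : aeval z Pq = 0 := aeval_eq_zero_of_dvd_aeval_eq_zero
          (minpoly.dvd ℚ _ (hroot i)) hz
        have h2 : aeval z (Pq.map (algebraMap ℚ ℝ)) = 0 := by rwa [aeval_map_algebraMap]
        rw [hPr, hchar, map_prod, prod_eq_zero_iff] at h2
        obtain ⟨j, -, hj⟩ := h2
        have hzj : z = lam j := by simpa [sub_eq_zero] using hj
        have hjk : lam j ≠ k := by
          intro hjk
          rw [hzj, hae, Complex.ofReal_eq_zero, hjk] at hz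
          have := minpoly.eq_of_irreducible_of_monic (minpoly.irreducible hq) hz (minpoly.monic hq)
          have h3 := minpoly.aeval ℚ (lam i)
          rw [this, hmk] at h3
          apply hik
          simpa [sub_eq_zero] using h3
        exact ⟨k - 1 - lam j ^ 2, hbd j hjk, by rw [hzj]; push_cast; ring⟩)
      (by
        rw [hmin, ← Complex.ofReal_neg, hae, Complex.ofReal_ne_zero]
        exact hi)
    have hc' : lam i = c := by exact_mod_cast hc
    refine ⟨c, hc', ?_⟩
    have := hbd i hik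
    rw [hc'] at this
    exact_mod_cast this
  set T : Finset V := (univ.filter fun i => ¬ pr (lam i)).erase i0 with hT
  have hsplit : ∀ f : ℝ → ℝ, (∀ x, f (-x) = -f x) →
      ∑ i, f (lam i) = f k + ∑ i ∈ T, f (lam i) := by
    intro f hf
    rw [← sum_filter_add_sum_filter_not univ (fun i => pr (lam i)), hpair f hf, zero_add,
      ← add_sum_erase _ _ (mem_filter.2 ⟨mem_univ i0, hi0p⟩), hi0]
  have htr0 : ∑ i, lam i = 0 := by
    have := hH.trace_eq_sum_eigenvalues
    simp only [RCLike.ofReal_real_eq_id, id] at this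
    rw [← this]
    simp [trace, hAr, htr]
  have h1 := hsplit (fun x => x) fun _ => rfl
  have h3 := fun r : ℕ => hsplit (fun x => x ^ (2 * r + 1)) fun x => Odd.neg_pow ⟨r, rfl⟩ x
  have hTZ : ∀ i ∈ T, ∃ c : ℤ, lam i = c ∧ |k - 1 - c ^ 2| ≤ 2 := fun i hi =>
    hZ i (mem_filter.1 (mem_erase.1 hi).2).2 (mem_erase.1 hi).1
  obtain ⟨i1, hi1⟩ : T.Nonempty := by
    by_contra hn
    rw [not_nonempty_iff_eq_empty.1 hn, sum_empty, htr0] at h1
    linarith
  obtain ⟨s, -, hs⟩ := hTZ i1 hi1
  have hd : ∀ i, ∃ d : ℤ, i ∈ T → lam i = s * d ∧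
      ∀ r : ℕ, lam i ^ (2 * r + 1) = s ^ (2 * r + 1) * d := by
    intro i
    by_cases hi : i ∈ T
    · obtain ⟨c, hc, hc2⟩ := hTZ i hi
      have e : |c| = |s| := by
        rw [← sq_abs c] at hc2
        rw [← sq_abs s] at hs
        have a1 := abs_le.1 hc2
        have a2 := abs_le.1 hs
        have a3 := abs_nonneg c
        have a4 := abs_nonneg s
        have a5 : 2 ≤ |c| := by by_contra hn; nlinarith
        have a6 : 2 ≤ |s| := by by_contra hn; nlinarith
        rcases lt_trichotomy |c| |s| with h | h | h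
        · nlinarith
        · exact h
        · nlinarith
      rcases abs_eq_abs.1 e with h | h
      · exact ⟨1, fun _ => by rw [hc, h]; simp⟩
      · refine ⟨-1, fun _ => ?_⟩
        rw [hc, h]
        push_cast
        exact ⟨by ring, fun r => by rw [Odd.neg_pow ⟨r, rfl⟩]; ring⟩
    · exact ⟨0, fun h => (hi h).elim⟩
  choose d hd using hd
  refine ⟨s, ∑ i ∈ T, d i, ?_, hs, ?_⟩
  · rw [htr0, sum_congr rfl fun i hi => (hd i hi).1, ← mul_sum] at h1
    exact_mod_cast h1.symm
  · intro r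
    have h4 := h3 r
    rw [← trace_pow hH, sum_congr rfl fun i hi => (hd i hi).2 r, ← mul_sum, hAr,
      ← RingHom.mapMatrix_apply, ← map_pow, RingHom.mapMatrix_apply, ← AddMonoidHom.map_trace,
      eq_intCast] at h4
    exact_mod_cast h4

end Pool.Agent.MP_45e593_co
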